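import Pool.Agent.Helper36.AM.St
import Pool.Agent.Helper48.DGM.Ms

/-! Row DGR (degrees of hulls are bounded): the frozen statements of its pieces.
* `EmbP`: a form of degree `D` is a form of degree `D'`; the canonical form of degree `D'` dominates it.
* `VolP`: the volume of the hull is bounded by the structure theorem for the projection of the truncation.
* `SliceP`: charts of the hull of one form and their slices, deterministic. -/

set_option autoImplicit false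

namespace Pool.Agent.Helper48.DGR

open Finset Filter Topology Matrix MeasureTheory Pool.Agent.Helper69.RK Pool.Agent.Helper31.EC
open Pool.Agent.Helper31.EC.Sp
open Pool.Agent.Helper40.EL Pool.Agent.Helper89.LX Pool.Agent.Helper3.LF Pool.Agent.Helper84.MT Pool.Agent.Helper59.LF
open Pool.Agent.Helper95.LF (PdM)

noncomputable section

/-- a monomial of degree at most `D` as a monomial of degree at most `D'` -/
def em {M D D' : ℕ} (h : D ≤ D') (a : Mon M D) : Mon M D' :=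
  ⟨fun i => ⟨(a.1 i : ℕ), lt_of_lt_of_le (a.1 i).2 (Nat.succ_le_succ h)⟩, a.2.trans h⟩

/-- row VOLC: `s` is connected at the window `0`; the volume of the hull of degree `D` is at most
`(d + 1) - lam d - E X_j + H(Q_lam)`, where `X_j` is the exponent of `1 + J_jj` -/
def VolP (d : ℕ) : Prop := ∀ (g r D : ℕ), 1 ≤ D → STm D d (lin g) (Fin r) → ∀ (S : Sp) (s : MSys S (d + 1) (lin g) (Fin r)),
  s.Con 0 → ∀ x : ∀ k, FD (S.F k) (Mon (d + 1) D), (gaq s.Q D).Optf (s.cnd 0) x → ∀ (j : Fin (d + 1)) (lam : ℝ),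
    0 < lam → lam ≤ 1 → vol s.Q D x ≤ (d + 1 : ℝ) - lam * d - ul (fun k => ∑ ω, (x k).l.T.μ ω *
      (Real.logb 2 (1 + Jq (S.dl 1 k) ((x k).g ω) (s.Q.v k ((x k).l.p.π ω)) j j) / (2 * (S.F k).n))) + H (s.Q.dg lam)

/-- row EMB: the volume decreases with the degree, and on a common label the canonical form `A'` of degree `D'`
dominates every admissible form `A` of degree `D ≤ D'` -/
def EmbP (M : ℕ) : Prop := ∀ (D D' : ℕ) (h : D ≤ D') (S : Sp) (ι : Type) (_ : Finite ι) (E : ℕ → ℕ) (s : MSys S M E ι),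
  s.vol D' 0 ≤ s.vol D 0 ∧ ∀ (x : ∀ k, FD (S.F k) (Mon M D)) (x' : ∀ k, FD (S.F k) (Mon M D')),
    (gaq s.Q D).Adf (s.cnd 0) x → (gaq s.Q D').Optf (s.cnd 0) x' → ∀ e : ℝ, 0 < e →
      Tendsto (fun k => ((x k).l.am (x' k).l).sp.pb (fun w => ¬ ∀ v : Mon M D' → ℝ,
        qf ((x k).g (((x k).l.am (x' k).l).p1.π w)) (fun a => v (em h a)) ≤
          2 ^ (e * (S.F k).n) * qf ((x' k).g (((x k).l.am (x' k).l).p2.π w)) v)) UF (𝓝 0)

/-- row SLICE: one form `A` of degree `D'`, level `r`, bound `κ`, grid `N`. Outside of a set `B` of small mass a point of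
the hull which is steep in the direction `j` is at distance at most `r` from a point `z` of one of finitely many
polynomial leaves `Φ i` of dimension `d`; a polynomial of degree at most `D` which is bounded by `H` on the hull is bounded
on the leaves. -/
def SliceP (d D' D K : ℕ) : Prop := ∃ (C : ℝ) (L : ℕ), 1 ≤ C ∧ ∀ A : Matrix (Mon (d + 1) D') (Mon (d + 1) D') ℝ, PdM A →
  (∀ v, v ⬝ᵥ v ≤ qf A v) → ∀ r : ℝ, 0 < r → r ≤ 1 → ∀ κ : ℝ, 1 ≤ κ → ∀ (N : ℕ) (θ τ : ℝ), 0 < θ → θ ≤ 1 → 0 < τ →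
  τ ≤ 1 → C * κ ^ 4 / τ ^ 2 ≤ N →
  ∃ (B : Set (Fin (d + 1) → ℝ)) (n₀ : ℕ) (Φ : Fin n₀ → Fin (d + 1) → MvPolynomial (Fin d) ℝ),
    MeasurableSet B ∧ (n₀ : ℝ) ≤ C * (N : ℝ) ^ (d + 1) ∧ (∀ i a, (Φ i a).totalDegree ≤ (d + 1) * K) ∧
    (∫⁻ x in B, ENNReal.ofReal (Real.sqrt (GQ r A x)) ≤
      ENNReal.ofReal (C * κ ^ (d + 1) * (1 / Real.sqrt N + θ))) ∧
    (∀ p x : Fin (d + 1) → ℝ, phi r A p ≤ κ → (∀ a, |p a| ≤ κ) → (∀ a, |x a - p a| ≤ r) → x ∉ B →
      ∀ j, τ ≤ r ^ 2 * Jq r A x j j → ∃ (i : Fin n₀) (X : Fin d → ℝ) (z : Fin (d + 1) → ℝ),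
        (∀ a, 0 ≤ X a ∧ X a ≤ 1) ∧ (∀ a, |z a - x a| ≤ r) ∧
          ∀ a, |z a - MvPolynomial.eval X (Φ i a)| ≤ C * κ * (C * κ / Real.sqrt (N * τ)) ^ (K + 1)) ∧
    (∀ (i : Fin n₀) (f : MvPolynomial (Fin (d + 1)) ℝ), f.totalDegree ≤ D → ∀ H H₂ : ℝ, 0 ≤ H → 0 ≤ H₂ →
      (∀ a, |f.coeff a| ≤ H₂) →
      (∀ x : Fin (d + 1) → ℝ, phi r A x ≤ C * κ ^ 2 → (∀ a, |x a| ≤ C * κ) → |MvPolynomial.eval x f| ≤ H) →
      ∀ X : Fin d → ℝ, (∀ a, 0 ≤ X a ∧ X a ≤ 1) →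
        |MvPolynomial.eval (fun a => MvPolynomial.eval X (Φ i a)) f| ≤
          C * (κ / (τ * θ)) ^ L * (H + κ ^ L * H₂ * (C * κ / Real.sqrt (N * τ)) ^ (K + 1)))

end

end Pool.Agent.Helper48.DGR
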