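import Pool.Agent.Helper48.DGR.Fin
import Pool.Agent.Helper41.VC.VolP
import Pool.Agent.Helper62.DGR.Emb
import Pool.Agent.Helper54.SLC.Top

/-! ROW DGR: degrees of hulls are bounded (no hypothesis). -/

set_option autoImplicit false

namespace Pool.Agent.Helper48.DGR

open Pool.Agent.Helper36.AM

/-- ROW DGR: the structure theorem in the dimensions below `M + 1` bounds the degrees of the hulls in dimension `M + 1` -/
theorem dgru (M : ℕ) : DGRu (M + 1) :=
  dgru_of (Pool.Agent.Helper41.VC.volP M) (Pool.Agent.Helper62.DGR.embP (M + 1))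
    (fun D' D K => Pool.Agent.Helper54.SLC.slice M D D' K)

end Pool.Agent.Helper48.DGR
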