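import Pool.Agent.Helper48.DGR.DgrC
import Pool.Agent.Helper89.RAD.Sd

/-! DEGREES OF HULLS OF K-LABELS AT ALL WINDOWS `0 <= c < 1`: the bound of the degrees depends on the dimension and on `g`
only (zoom of helper89 about the cells of level `c`, unit `1 - c`; the exponents `lin g` of the zoom are the same). -/

set_option autoImplicit false

namespace Pool.Agent.Helper48.DGR

open Finset Filter Topology Matrix Pool.Agent.Helper69.RK Pool.Agent.Helper31.EC Pool.Agent.Helper31.EC.Sp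
open Pool.Agent.Helper40.EL Pool.Agent.Helper89.LX Pool.Agent.Helper3.LF Pool.Agent.Helper84.MT Pool.Agent.Helper26.MZ
open Pool.Agent.Helper36.AM (STu)
open Pool.Agent.Helper7.RD (volC volCO volC_eq volCO_le volC_le_M volC_zero)
open Pool.Agent.Helper89.RAD
open Pool.Agent.Helper89.RAK (KC Lit)

noncomputable section

variable {M : ℕ}

/-- **THE DEGREES OF K-VOLUMES AT ALL WINDOWS**, literal resolutions -/
theorem dgr_win (hst : ∀ m, m < M + 1 → STu m) (g : ℕ) : ∃ D₁ : ℕ, 1 ≤ D₁ ∧ ∀ D, D₁ ≤ D → ∀ (ι : Type) [Finite ι]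
    (S : Sp) (s : MSys S (M + 1) (lin g) ι) (R : ∀ k, Setoid (S.F k).Ω) (_ : Lit R s.Q) (c : ℝ) (_ : 0 ≤ c) (_ : c < 1)
    (D' : ℕ), volC (KC R) (cnA s (dp R) c) s.Q D ≤ volC (KC R) (cnA s (dp R) c) s.Q D' := by
  obtain ⟨D₁, d0, d1⟩ := dgr_lit hst g
  refine ⟨D₁, d0, fun D hD ι _ S s R hlit c h0 h1 D' => ?_⟩
  rcases Nat.eq_zero_or_pos D' with hz | hD'
  · subst hz
    rw [volC_zero]
    exact volC_le_M
  · obtain ⟨x, hx⟩ := (gaq s.Q D).exists_optfK (KC R) (cnA s (dp R) c)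
    obtain ⟨x', hx'⟩ := (gaq s.Q D').exists_optfK (KC R) (cnA s (dp R) c)
    rw [volC_eq hx, volC_eq hx']
    have hA := lit_ple hlit c
    have hl : DMD s (dp R) R c (fun k => FLab.triv (S.F k)) := DMD.triv c
    set Z : ZW s := mkD h0 h1 hA hl with hZ
    have hAl : Nul S fun k => (Z.l k).leak (dp R k) := mkD_leak h0 h1 hA hl
    have hkz : (KC R).ev Z.l := mkD_kz h0 h1 hA hlit hl
    have k1 : (gaq s.Q D).OptfK (KC R) (cnA s (dp R) (Z.c + Z.e * 0)) x := by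
      rw [mul_zero, add_zero]
      exact hx
    have k2 : (gaq s.Q D').OptfK (KC R) (cnA s (dp R) (Z.c + Z.e * 0)) x' := by
      rw [mul_zero, add_zero]
      exact hx'
    have y1 := optD_inn Z hAl hkz le_rfl k1
    have y2 := optD_inn Z hAl hkz le_rfl k2
    have v1 := volD_zoom Z hAl hkz (d0.trans hD) le_rfl y1 k1
    have v2 := volD_zoom Z hAl hkz hD' le_rfl y2 k2
    have h5 := d1 D hD ι Z.sp Z.sys (zR Z R) (lit_zoom Z hlit) D'
    rw [v1, v2]
    apply mul_le_mul_of_nonneg_left _ Z.e_pos.le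
    have e1 : volC (KC (zR Z R)) (cnA Z.sys (dp (zR Z R)) 0) Z.sys.Q D = vol Z.sys.Q D (Z.inn x) := volC_eq y1
    have e2 : volC (KC (zR Z R)) (cnA Z.sys (dp (zR Z R)) 0) Z.sys.Q D' = vol Z.sys.Q D' (Z.inn x') := volC_eq y2
    rw [← e1, ← e2]
    exact h5

/-- the volume in all degrees is attained, all windows -/
theorem dgr_winO (hst : ∀ m, m < M + 1 → STu m) (g : ℕ) : ∃ D₁ : ℕ, 1 ≤ D₁ ∧ ∀ D, D₁ ≤ D → ∀ (ι : Type) [Finite ι]
    (S : Sp) (s : MSys S (M + 1) (lin g) ι) (R : ∀ k, Setoid (S.F k).Ω) (_ : Lit R s.Q) (c : ℝ) (_ : 0 ≤ c) (_ : c < 1),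
    volC (KC R) (cnA s (dp R) c) s.Q D ≤ volCO (KC R) (cnA s (dp R) c) s.Q := by
  obtain ⟨D₁, d0, d1⟩ := dgr_win hst g
  exact ⟨D₁, d0, fun D hD ι _ S s R hlit c h0 h1 => le_ciInf fun D' => d1 D hD ι S s R hlit c h0 h1 D'⟩

end

end Pool.Agent.Helper48.DGR
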