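import Pool.Agent.Helper48.DGR.DgrK
import Pool.Agent.Helper7.RD.Kv
import Pool.Agent.Helper89.RAD.Kd

/-! DEGREES OF HULLS OF K-LABELS in the notation of `volC` (helper7): literal resolutions, conditions `cnA s (dp R) 0`. -/

set_option autoImplicit false

namespace Pool.Agent.Helper48.DGR

open Finset Filter Topology Matrix Pool.Agent.Helper69.RK Pool.Agent.Helper31.EC Pool.Agent.Helper31.EC.Sp
open Pool.Agent.Helper40.EL Pool.Agent.Helper89.LX Pool.Agent.Helper3.LF Pool.Agent.Helper84.MT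
open Pool.Agent.Helper36.AM (STu)
open Pool.Agent.Helper7.RD (volC volCO volC_eq volCO_le)
open Pool.Agent.Helper89.RAD (cnA dp)
open Pool.Agent.Helper89.RAK (KC Lit)
open Pool.Agent.Helper52.GF (scw)

noncomputable section

variable {M : ℕ}

theorem cnA_scw {S : Sp} {N : ℕ} {E : ℕ → ℕ} {ι : Type} (s : MSys S N E ι) (A : Part S) (c : ℝ) :
    cnA s A c = scw s A c := funext fun i => by cases i <;> rfl

/-- THE DEGREES OF K-VOLUMES (window `0`), uniformly in the family of types, the space, the system and the resolution -/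
theorem dgr_volC (hst : ∀ m, m < M + 1 → STu m) (g : ℕ) : ∃ D₁ : ℕ, 1 ≤ D₁ ∧ ∀ D, D₁ ≤ D → ∀ (ι : Type) [Finite ι]
    (S : Sp) (s : MSys S (M + 1) (lin g) ι) (R : ∀ k, Setoid (S.F k).Ω) (_ : ∀ᶠ k in UF, ∀ ω ω', (S.F k).μ ω ≠ 0 →
      (S.F k).μ ω' ≠ 0 → (S.F k).Z ω ω' → R k ω ω' → s.Q.cellv 1 k ω = s.Q.cellv 1 k ω') (D' : ℕ),
    volC (KC R) (cnA s (dp R) 0) s.Q D ≤ volC (KC R) (cnA s (dp R) 0) s.Q D' := by
  obtain ⟨D₁, h1⟩ := dgrR hst g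
  refine ⟨max D₁ 1, le_max_right _ _, fun D hD ι _ S s R hR D' => ?_⟩
  obtain ⟨x, hx⟩ := (gaq s.Q D).exists_optfK (KC R) (cnA s (dp R) 0)
  obtain ⟨x', hx'⟩ := (gaq s.Q D').exists_optfK (KC R) (cnA s (dp R) 0)
  rw [volC_eq hx, volC_eq hx']
  rw [cnA_scw] at hx hx'
  exact h1 D ((le_max_left _ _).trans hD) D' ι S s R hR x' hx'.1 x hx

/-- literal resolutions -/
theorem dgr_lit (hst : ∀ m, m < M + 1 → STu m) (g : ℕ) : ∃ D₁ : ℕ, 1 ≤ D₁ ∧ ∀ D, D₁ ≤ D → ∀ (ι : Type) [Finite ι]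
    (S : Sp) (s : MSys S (M + 1) (lin g) ι) (R : ∀ k, Setoid (S.F k).Ω) (_ : Lit R s.Q) (D' : ℕ),
    volC (KC R) (cnA s (dp R) 0) s.Q D ≤ volC (KC R) (cnA s (dp R) 0) s.Q D' := by
  obtain ⟨D₁, h0, h1⟩ := dgr_volC hst g
  refine ⟨D₁, h0, fun D hD ι _ S s R hR D' => h1 D hD ι S s R (Eventually.of_forall fun k ω ω' _ _ _ r => ?_) D'⟩
  have h2 : s.Q.v k ω = s.Q.v k ω' := hR k r
  funext i
  show ⌊s.Q.v k ω i / S.dl 1 k⌋ = ⌊s.Q.v k ω' i / S.dl 1 k⌋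
  rw [h2]

/-- the volume in all degrees is attained -/
theorem dgr_volCO (hst : ∀ m, m < M + 1 → STu m) (g : ℕ) : ∃ D₁ : ℕ, 1 ≤ D₁ ∧ ∀ D, D₁ ≤ D → ∀ (ι : Type) [Finite ι]
    (S : Sp) (s : MSys S (M + 1) (lin g) ι) (R : ∀ k, Setoid (S.F k).Ω) (_ : ∀ᶠ k in UF, ∀ ω ω', (S.F k).μ ω ≠ 0 →
      (S.F k).μ ω' ≠ 0 → (S.F k).Z ω ω' → R k ω ω' → s.Q.cellv 1 k ω = s.Q.cellv 1 k ω'),
    volCO (KC R) (cnA s (dp R) 0) s.Q = volC (KC R) (cnA s (dp R) 0) s.Q D := by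
  obtain ⟨D₁, h0, h1⟩ := dgr_volC hst g
  exact ⟨D₁, h0, fun D hD ι _ S s R hR => le_antisymm (volCO_le D) (le_ciInf fun D' => h1 D hD ι S s R hR D')⟩

end

end Pool.Agent.Helper48.DGR
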