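import Pool.Agent.Helper14.MC.Ccap

/-! Row DGR: COUNT IN A SET. If the cell of level `lam` of the point is typically contained in a set which depends on the
base and whose mass (with the density of a form) is at most `2 ^ (m n)`, and the exponent of the form at the point is at
least `v`, then the point has at most `M lam - v + m` digits of level `lam` over the base. -/

set_option autoImplicit false

namespace Pool.Agent.Helper48.DGR

open Finset Filter Topology MvPolynomial MeasureTheory Matrix Pool.Agent.Helper69.RK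
open Pool.Agent.Helper31.EC Pool.Agent.Helper31.EC.Sp Pool.Agent.Helper95.LF
open Pool.Agent.Helper3.LF Pool.Agent.Helper89.LX Pool.Agent.Helper84.MT
open Pool.Agent.Helper80.LF (Q mem_Q Q_vol Q_disj)
open Pool.Agent.Helper14.MC (fin_cnt res_of res_of_not avC avC_pos vol_form)

noncomputable section

variable {M D : ℕ}

theorem dd_cont (a : Fin M) : Continuous fun p : Fin M → ℝ => (dd a p : Mon M D → ℝ) := by
  refine continuous_pi fun μ => ?_
  show Continuous fun p : Fin M → ℝ => eval p (pderiv a μ.mon)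
  exact MvPolynomial.continuous_eval _

theorem nodp_cont (r : ℝ) (j : Fin M → Fin (D + 1)) : Continuous fun p : Fin M → ℝ => nodp D p r j := by
  refine continuous_pi fun i => ?_
  unfold nodp
  exact (continuous_apply i).add continuous_const

theorem Jq_cont (r : ℝ) (A : Matrix (Mon M D) (Mon M D) ℝ) : Continuous fun p => Jq r A p := by
  refine continuous_matrix fun a b => ?_
  have h1 : (fun p => Jq r A p a b) = fun p => ∑ j : Fin M → Fin (D + 1),
      dd a (nodp D p r j) ⬝ᵥ (A *ᵥ dd b (nodp D p r j)) := funext fun p => Jq_apply r A p a b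
  rw [h1]
  refine continuous_finsetSum _ fun j _ => ?_
  have h2 : Continuous fun p : Fin M → ℝ => (dd a (nodp D p r j) : Mon M D → ℝ) := (dd_cont a).comp (nodp_cont r j)
  have h3 : Continuous fun p : Fin M → ℝ => (dd b (nodp D p r j) : Mon M D → ℝ) := (dd_cont b).comp (nodp_cont r j)
  exact h2.dotProduct (continuous_const.matrix_mulVec h3)

theorem GQ_cont (r : ℝ) (A : Matrix (Mon M D) (Mon M D) ℝ) : Continuous fun p => GQ r A p := by
  unfold GQ
  exact (continuous_const.add (Jq_cont r A)).matrix_det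

/-- the part of a set of small mass where the density is large -/
theorem mass_part (r : ℝ) (A : Matrix (Mon M D) (Mon M D) ℝ) (B : Set (Fin M → ℝ)) (hB : MeasurableSet B) (w g : ℝ)
    (hg : 0 < g) (h : ∫⁻ x in B, ENNReal.ofReal (Real.sqrt (GQ r A x)) ≤ ENNReal.ofReal w) :
    volume (B ∩ {x | g ^ 2 ≤ GQ r A x}) ≤ ENNReal.ofReal (w / g) := by
  have hm : MeasurableSet (B ∩ {x | g ^ 2 ≤ GQ r A x}) :=
    hB.inter (isClosed_le continuous_const (GQ_cont r A)).measurableSet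
  have h1 : ENNReal.ofReal g * volume (B ∩ {x | g ^ 2 ≤ GQ r A x}) ≤ ENNReal.ofReal w := by
    rw [← setLIntegral_const]
    refine le_trans (setLIntegral_mono' hm fun y hy => ?_) ((lintegral_mono_set Set.inter_subset_left).trans h)
    apply ENNReal.ofReal_le_ofReal
    have h2 : g ^ 2 ≤ GQ r A y := hy.2
    exact Real.le_sqrt_of_sq_le h2
  rw [ENNReal.ofReal_div_of_pos hg, ENNReal.le_div_iff_mul_le (Or.inl (by
    rw [ne_eq, ENNReal.ofReal_eq_zero, not_le]
    exact hg)) (Or.inl ENNReal.ofReal_ne_top), mul_comm]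
  exact h1

/-- COUNT IN A SET, abstract form -/
theorem cnt_abs {S : Sp} (y : S.VV M) (lam : ℝ) (h0 : 0 ≤ lam)
    (U : ∀ k, (S.F k).Ω → Set (Fin M → ℝ))
    (hZ : ∀ᶠ k in UF, ∀ ω ω', (S.F k).μ ω ≠ 0 → (S.F k).μ ω' ≠ 0 → (S.F k).Z ω ω' → U k ω = U k ω')
    (E : ∀ k, (S.F k).Ω → Prop) (hE : Typ E) (w C : ℝ) (hC : 0 < C)
    (hU : ∀ᶠ k in UF, ∀ ω, (S.F k).μ ω ≠ 0 → volume (U k ω) ≤ ENNReal.ofReal (C * 2 ^ (w * (S.F k).n)))
    (hQ : ∀ᶠ k in UF, ∀ ω, (S.F k).μ ω ≠ 0 → E k ω → Q (S.dl lam k) (fun i => ⌊y.v k ω i / S.dl lam k⌋) ⊆ U k ω) :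
    H (y.dg lam) ≤ M * lam + w := by
  classical
  obtain ⟨Ky, hKyS, hKy⟩ := y.bd
  set R : ℕ → ℝ := fun k => 7 * (Ky k + 1) with hR
  have hRS : S.Sub R := (S.Sub_const (by norm_num)).mul (hKyS.add (S.Sub_const zero_le_one))
  set fy : ℕ → ℝ := S.rt (fun k => Setoid.ker (y.cellv lam k)) S.tr with hfy
  have hHy : H (y.dg lam) = ul fy := Sp.H_io (y.bdd lam)
  have hUBy : UB fy := Sp.UB_rt (y.bdd lam).toInf _
  set p0 : ℕ → ℝ := fun k => mass (res (S.F k).μ (fun ω => ¬ E k ω)) with hp0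
  have hp0t : Tendsto p0 UF (𝓝 0) := hE
  have hpEt : Tendsto (fun k => mass (res (S.F k).μ (E k))) UF (𝓝 1) := (Typ_iff E).mp hE
  rw [hHy]
  set LL : ℝ := Real.logb 2 C with hLL
  set f : ℕ → ℝ := fun k => 1 / (S.F k).n + mass (res (S.F k).μ (E k)) * (LL / (S.F k).n + (M * lam + w)) +
    M * (Real.logb 2 (R k + 2) / (S.F k).n + lam) * p0 k with hf
  have hft : Tendsto f UF (𝓝 (M * lam + w)) := by
    have t1 := S.div_n_tendsto 1
    have t2 := hpEt.mul ((S.div_n_tendsto LL).add_const (M * lam + w))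
    have t4 := ((hRS.2.add_const lam).const_mul (M : ℝ)).mul hp0t
    have t5 := (t1.add t2).add t4
    have e5 : 0 + 1 * (0 + (M * lam + w)) + M * (0 + lam) * 0 = M * lam + w := by ring
    rw [e5] at t5
    exact t5
  have hkey : ∀ᶠ k in UF, fy k ≤ f k := by
    filter_upwards [hKy, hKyS.1, hZ, hU, hQ] with k b1 b2 b5 b7 b8
    have hn := (S.F k).pos
    have hδ := S.dl_pos lam k
    have hδ1 : S.dl lam k ≤ 1 := by
      have := S.dl_anti h0 k
      rwa [S.dl_zero] at this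
    have hfin := fin_cnt (M := M) (S.F k).μ (Quotient.mk (S.F k).Z) (y.v k) (E k) (S.dl lam k) (Ky k + 1)
      (fun _ => C * 2 ^ (w * (S.F k).n)) (fun _ => 0) 0 (U k)
      (S.F k).nn (S.F k).ms hδ hδ1 (by linarith) (fun ω hω i => (b1 ω hω i).trans (by linarith))
      (fun ω hω => le_rfl)
      (fun ω _ => by positivity)
      (by
        intro ω ω' a1 a2 _ _ a5 _
        exact b5 ω ω' a1 a2 (Quotient.exact a5))
      (by
        intro ω hω _
        exact b7 ω hω)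
      (by
        intro ω hω hEω
        exact b8 ω hω hEω)
    have hcy : CH (S.F k).μ (fun ω i => ⌊y.v k ω i / S.dl lam k⌋) (Quotient.mk (S.F k).Z) = fy k * (S.F k).n := by
      show _ = S.rt (fun k => Setoid.ker (y.cellv lam k)) S.tr k * (S.F k).n
      unfold rt
      rw [div_mul_cancel₀ _ hn.ne']
      symm
      apply FSp.e_congr
      · intro ω ω' _ _
        exact Iff.rfl
      · intro ω ω' _ _
        constructor
        · rintro ⟨_, h2⟩
          exact Quotient.sound h2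
        · intro h1
          exact ⟨trivial, Quotient.exact h1⟩
    rw [hcy] at hfin
    -- logarithms
    have l1 : Real.logb 2 (7 * (Ky k + 1) / S.dl lam k) ≤ Real.logb 2 (R k + 2) + lam * (S.F k).n := by
      rw [Real.logb_div (by positivity) hδ.ne']
      unfold dl
      rw [Real.logb_rpow (by norm_num) (by norm_num)]
      have e1 : Real.logb 2 (7 * (Ky k + 1)) ≤ Real.logb 2 (R k + 2) :=
        Real.logb_le_logb_of_le (by norm_num) (by positivity) (by
          show 7 * (Ky k + 1) ≤ 7 * (Ky k + 1) + 2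
          linarith)
      linarith
    have l2 : Real.logb 2 (C * 2 ^ (w * (S.F k).n) / S.dl lam k ^ M) = LL + (M * lam + w) * (S.F k).n := by
      rw [Real.logb_div (by positivity) (by positivity), Real.logb_mul (by positivity) (by positivity),
        Real.logb_rpow (by norm_num) (by norm_num), Real.logb_pow]
      unfold dl
      rw [Real.logb_rpow (by norm_num) (by norm_num)]
      ring
    have l3 : ∑ ω, res (S.F k).μ (E k) ω * Real.logb 2 (C * 2 ^ (w * (S.F k).n) / S.dl lam k ^ M) =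
        mass (res (S.F k).μ (E k)) * (LL + (M * lam + w) * (S.F k).n) := by
      rw [← Finset.sum_mul, l2]
      rfl
    rw [l3] at hfin
    have hp0k : 0 ≤ p0 k := (S.F k).pb_nonneg _
    have l4 : M * Real.logb 2 (7 * (Ky k + 1) / S.dl lam k) * p0 k ≤
        M * (Real.logb 2 (R k + 2) + lam * (S.F k).n) * p0 k :=
      mul_le_mul_of_nonneg_right (mul_le_mul_of_nonneg_left l1 (Nat.cast_nonneg M)) hp0k
    have l5 : Real.logb 2 ((0 : ℕ) + 2 : ℝ) = 1 := by
      rw [Nat.cast_zero, zero_add]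
      exact Real.logb_self_eq_one (by norm_num)
    have hfin2 : fy k * (S.F k).n ≤ f k * (S.F k).n := by
      have e1 : f k * (S.F k).n = 1 + mass (res (S.F k).μ (E k)) * (LL + (M * lam + w) * (S.F k).n) +
          M * (Real.logb 2 (R k + 2) + lam * (S.F k).n) * p0 k := by
        rw [hf]
        beta_reduce
        field_simp
      rw [e1]
      rw [l5] at hfin
      have e2 : fy k * (S.F k).n ≤ 1 + mass (res (S.F k).μ (E k)) * (LL + (M * lam + w) * (S.F k).n) +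
        M * Real.logb 2 (7 * (Ky k + 1) / S.dl lam k) * p0 k := hfin
      linarith
    exact le_of_mul_le_mul_right hfin2 hn
  have h1 : ul fy ≤ ul f := ul_mono hUBy (UB_of_tendsto hft) hkey
  rw [ul_eq hft] at h1
  exact h1

/-- points of the cell are close -/
theorem cell_close {δ : ℝ} (hδ : 0 < δ) {p q : Fin M → ℝ} (h : p ∈ Q δ (fun i => ⌊q i / δ⌋)) (i : Fin M) :
    |p i - q i| ≤ δ := by
  rw [mem_Q hδ] at h
  have h2 := h i
  have f1 := Int.floor_le (p i / δ)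
  have f2 := Int.lt_floor_add_one (p i / δ)
  have f3 := Int.floor_le (q i / δ)
  have f4 := Int.lt_floor_add_one (q i / δ)
  rw [h2] at f1 f2
  rw [le_div_iff₀ hδ] at f1 f3
  rw [div_lt_iff₀ hδ] at f2 f4
  rw [abs_le]
  constructor <;> nlinarith

/-- the density is comparable on the cell -/
theorem GQ_cell {S : Sp} {lam : ℝ} (h1 : lam ≤ 1) (k : ℕ) (B : Matrix (Mon M D) (Mon M D) ℝ) (hB : PdM B)
    {p q : Fin M → ℝ} (h : p ∈ Q (S.dl lam k) (fun i => ⌊q i / S.dl lam k⌋)) :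
    GQ (S.dl 1 k) B q ≤ cQ M D ^ M * 2 ^ (2 * D * M) * GQ (S.dl lam k) B p := by
  have hδ := S.dl_pos lam k
  have hd1 := S.dl_pos 1 k
  have hd2 : S.dl 1 k ≤ S.dl lam k := S.dl_anti h1 k
  refine GQ_comp B hB (S.dl lam k) (S.dl 1 k) 2 hδ hd1.le (by norm_num) p q (fun i => ?_)
  have := cell_close hδ h i
  rw [abs_sub_comm] at this
  linarith

/-- COUNT IN A SET OF SMALL MASS -/
theorem cnt_set {S : Sp} (y : S.VV M) (lam : ℝ) (h0 : 0 ≤ lam) (h1 : lam ≤ 1)
    (B : ∀ k, (S.F k).Ω → Matrix (Mon M D) (Mon M D) ℝ)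
    (hB : ∀ᶠ k in UF, ∀ ω, (S.F k).μ ω ≠ 0 → PdM (B k ω))
    (U : ∀ k, (S.F k).Ω → Set (Fin M → ℝ)) (hUm : ∀ᶠ k in UF, ∀ ω, (S.F k).μ ω ≠ 0 → MeasurableSet (U k ω))
    (hZ : ∀ᶠ k in UF, ∀ ω ω', (S.F k).μ ω ≠ 0 → (S.F k).μ ω' ≠ 0 → (S.F k).Z ω ω' → B k ω = B k ω' ∧ U k ω = U k ω')
    (E : ∀ k, (S.F k).Ω → Prop) (hE : Typ E) (v m C : ℝ) (hC : 0 < C)
    (hv : ∀ᶠ k in UF, ∀ ω, (S.F k).μ ω ≠ 0 → E k ω → (2 : ℝ) ^ (2 * v * (S.F k).n) ≤ GQ (S.dl 1 k) (B k ω) (y.v k ω))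
    (hm : ∀ᶠ k in UF, ∀ ω, (S.F k).μ ω ≠ 0 → ∫⁻ x in U k ω, ENNReal.ofReal (Real.sqrt (GQ (S.dl lam k) (B k ω) x)) ≤
      ENNReal.ofReal (C * 2 ^ (m * (S.F k).n)))
    (hQ : ∀ᶠ k in UF, ∀ ω, (S.F k).μ ω ≠ 0 → E k ω → Q (S.dl lam k) (fun i => ⌊y.v k ω i / S.dl lam k⌋) ⊆ U k ω) :
    H (y.dg lam) ≤ M * lam + (m - v) := by
  set c₀ : ℝ := cQ M D ^ M * 2 ^ (2 * D * M) with hc₀
  have hcQ := cQ_one M D
  have hc₀1 : 1 ≤ c₀ := one_le_mul_of_one_le_of_one_le (one_le_pow₀ hcQ) (one_le_pow₀ (by norm_num))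
  have hs0 : 0 < Real.sqrt c₀ := Real.sqrt_pos.mpr (by linarith)
  set g : ℕ → ℝ := fun k => 2 ^ (v * (S.F k).n) / Real.sqrt c₀ with hg
  have hg0 : ∀ k, 0 < g k := fun k => by rw [hg]; positivity
  have hg2 : ∀ k, g k ^ 2 = 2 ^ (2 * v * (S.F k).n) / c₀ := fun k => by
    rw [hg]
    beta_reduce
    rw [div_pow, Real.sq_sqrt (by positivity), ← Real.rpow_natCast, ← Real.rpow_mul (by norm_num)]
    congr 2
    push_cast
    ring
  refine cnt_abs y lam h0 (fun k ω => U k ω ∩ {x | g k ^ 2 ≤ GQ (S.dl lam k) (B k ω) x}) ?_ E hE (m - v)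
    (C * Real.sqrt c₀) (by positivity) ?_ ?_
  · filter_upwards [hZ] with k hk ω ω' a b c
    obtain ⟨e1, e2⟩ := hk ω ω' a b c
    rw [e1, e2]
  · filter_upwards [hUm, hm] with k a b ω hω
    have hn := (S.F k).pos
    refine (mass_part _ _ _ (a ω hω) _ _ (hg0 k) (b ω hω)).trans (le_of_eq ?_)
    congr 1
    rw [hg]
    beta_reduce
    have e3 : (m - v) * (S.F k).n = m * (S.F k).n - v * (S.F k).n := by ring
    rw [e3, Real.rpow_sub (by norm_num)]
    field_simp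
  · filter_upwards [hB, hv, hQ] with k b3 b6 b8 ω hω hEω P hP
    refine ⟨b8 ω hω hEω hP, ?_⟩
    have a3 := (b6 ω hω hEω).trans (GQ_cell h1 k (B k ω) (b3 ω hω) hP)
    show g k ^ 2 ≤ GQ (S.dl lam k) (B k ω) P
    rw [hg2, div_le_iff₀ (by positivity)]
    refine a3.trans (le_of_eq ?_)
    rw [hc₀]
    ring

/-- COUNT IN A FORM OF A COARSER LEVEL -/
theorem cnt_form {S : Sp} (hD : 1 ≤ D) (y : S.VV M) (lam : ℝ) (h0 : 0 ≤ lam) (h1 : lam ≤ 1)
    (B : ∀ k, (S.F k).Ω → Matrix (Mon M D) (Mon M D) ℝ)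
    (hB : ∀ᶠ k in UF, ∀ ω, (S.F k).μ ω ≠ 0 → (B k ω).IsSymm ∧ ∀ v, v ⬝ᵥ v ≤ v ⬝ᵥ (B k ω *ᵥ v))
    (hZ : ∀ᶠ k in UF, ∀ ω ω', (S.F k).μ ω ≠ 0 → (S.F k).μ ω' ≠ 0 → (S.F k).Z ω ω' → B k ω = B k ω')
    (v : ℝ)
    (hv : ∀ᶠ k in UF, ∀ ω, (S.F k).μ ω ≠ 0 → (2 : ℝ) ^ (2 * v * (S.F k).n) ≤ GQ (S.dl 1 k) (B k ω) (y.v k ω))
    (hp : ∀ e : ℝ, 0 < e → Typ (S := S) (fun k ω => phi (S.dl lam k) (B k ω) (y.v k ω) ≤ 2 ^ (e * (S.F k).n))) :
    H (y.dg lam) ≤ M * lam - v := by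
  set c₀ : ℝ := cQ M D ^ M * 2 ^ (2 * D * M) with hc₀
  have hcQ := cQ_one M D
  have hc₀1 : 1 ≤ c₀ := one_le_mul_of_one_le_of_one_le (one_le_pow₀ hcQ) (one_le_pow₀ (by norm_num))
  have hs0 : 0 < Real.sqrt c₀ := Real.sqrt_pos.mpr (by linarith)
  set c₁ : ℝ := nn M D * (Cu D * Cm M D * 2 ^ D) ^ 2 with hc₁
  have hCu := Cu_one D
  have hCm := Cm_one M D
  have hnn := nn_one M D
  have hc₁0 : 0 < c₁ := by positivity
  have hPd : ∀ᶠ k in UF, ∀ ω, (S.F k).μ ω ≠ 0 → PdM (B k ω) := by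
    filter_upwards [hB] with k hk ω hω
    exact ⟨(hk ω hω).1, fun v hv => (self_pos hv).trans_le ((hk ω hω).2 v)⟩
  set g : ℕ → ℝ := fun k => 2 ^ (v * (S.F k).n) / Real.sqrt c₀ with hg
  have hg0 : ∀ k, 0 < g k := fun k => by rw [hg]; positivity
  have hg2 : ∀ k, g k ^ 2 = 2 ^ (2 * v * (S.F k).n) / c₀ := fun k => by
    rw [hg]
    beta_reduce
    rw [div_pow, Real.sq_sqrt (by positivity), ← Real.rpow_natCast, ← Real.rpow_mul (by norm_num)]
    congr 2
    push_cast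
    ring
  apply le_of_forall_pos_le_add
  intro ε hε
  set e : ℝ := ε / (M + 1) with he
  have he0 : 0 < e := by positivity
  set ρ : ℕ → ℝ := fun k => Real.sqrt c₁ * 2 ^ (e / 2 * (S.F k).n) with hρ
  have hρ0 : ∀ k, 0 < ρ k := fun k => by
    have := Real.sqrt_pos.mpr hc₁0
    rw [hρ]; positivity
  have hρ2 : ∀ k, ρ k ^ 2 = c₁ * 2 ^ (e * (S.F k).n) := fun k => by
    rw [hρ]
    beta_reduce
    rw [mul_pow, Real.sq_sqrt hc₁0.le, ← Real.rpow_natCast, ← Real.rpow_mul (by norm_num)]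
    congr 2
    push_cast
    ring
  have hmain := cnt_abs y lam h0 (fun k ω => {x | phi (S.dl lam k) (B k ω) x ≤ ρ k ^ 2 ∧
    g k ^ 2 ≤ GQ (S.dl lam k) (B k ω) x}) (by
      filter_upwards [hZ] with k hk ω ω' a b c
      rw [hk ω ω' a b c]) _ (hp e he0) (e / 2 * M - v) (avC M D * Real.sqrt c₁ ^ M * Real.sqrt c₀) (by
      have := avC_pos M D
      have := Real.sqrt_pos.mpr hc₁0
      positivity) (by
      filter_upwards [hB] with k b1 ω hω
      refine (vol_form hD (S.dl lam k) (B k ω) (b1 ω hω).1 (b1 ω hω).2 (ρ k) (g k) (hρ0 k) (hg0 k)).trans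
        (le_of_eq ?_)
      congr 1
      rw [hρ, hg]
      beta_reduce
      have e3 : (e / 2 * M - v) * (S.F k).n = (e / 2 * (S.F k).n) * M - v * (S.F k).n := by ring
      have e4 : (2 : ℝ) ^ ((e / 2 * (S.F k).n) * M) = (2 ^ (e / 2 * (S.F k).n)) ^ M := by
        rw [Real.rpow_mul (by norm_num), Real.rpow_natCast]
      rw [e3, Real.rpow_sub (by norm_num), e4, mul_pow]
      field_simp) (by
      filter_upwards [hPd, hv] with k b3 b6 ω hω hEω P hP
      constructor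
      · have a1 := phi_comp (B k ω) (b3 ω hω) (S.dl lam k) (S.dl lam k) 2 (S.dl_pos lam k) (S.dl_pos lam k).le
          (by norm_num) (y.v k ω) P (by
          intro i
          have := cell_close (S.dl_pos lam k) hP i
          linarith)
        rw [hρ2]
        exact a1.trans (mul_le_mul_of_nonneg_left hEω hc₁0.le)
      · have a3 := (b6 ω hω).trans (GQ_cell h1 k (B k ω) (b3 ω hω) hP)
        show g k ^ 2 ≤ GQ (S.dl lam k) (B k ω) P
        rw [hg2, div_le_iff₀ (by positivity)]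
        refine a3.trans (le_of_eq ?_)
        rw [hc₀]
        ring)
  have e4 : e / 2 * M ≤ ε := by
    rw [he]
    have h5 : ε / (M + 1) / 2 * M = ε * (M / (2 * (M + 1))) := by field_simp
    rw [h5]
    have h6 : (M : ℝ) / (2 * (M + 1)) ≤ 1 := by
      rw [div_le_one (by positivity)]
      have : (0 : ℝ) ≤ M := Nat.cast_nonneg M
      linarith
    nlinarith
  linarith

end

end Pool.Agent.Helper48.DGR
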