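import Pool.Agent.Helper48.DGR.Cls
import Pool.Agent.Helper48.DGR.Cnt

/-! Row DGR: thickness of a form from its exponents, size of the form on coarser cells, counts over the label. -/

set_option autoImplicit false

namespace Pool.Agent.Helper48.DGR

open Finset Filter Topology Matrix MeasureTheory Pool.Agent.Helper69.RK Pool.Agent.Helper31.EC
open Pool.Agent.Helper31.EC.Sp
open Pool.Agent.Helper40.EL Pool.Agent.Helper89.LX Pool.Agent.Helper3.LF Pool.Agent.Helper84.MT Pool.Agent.Helper59.LF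
open Pool.Agent.Helper95.LF (PdM det_gain self_pos dv_add)
open Pool.Agent.Helper14.MC (gx vx vol_eq vx_UB oQ oQ_dg H_u1)
open Pool.Agent.Helper42.NS (osp u1 u1_dg u1_h osp_dl)
open Pool.Agent.Helper48.DGM (der_dom pt_close)
open Pool.Agent.Helper48.NS (qf_dif Tm)
open Pool.Agent.Helper80.LF (Q mem_Q)

noncomputable section

variable {S : Sp} {M D D' : ℕ} {E : ℕ → ℕ} {ι κ : Type}

theorem gam_eq (r : ℝ) (A : Matrix (Mon M D) (Mon M D) ℝ) (p : Fin M → ℝ) : gam r A p = ∑ j, Jq r A p j j := by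
  unfold gam
  exact Finset.sum_congr rfl fun j _ => (Jq_apply r A p j j).symm

/-- the entries from the exponents -/
theorem Jq_up (P : S.VV M) (k : ℕ) (ω : (S.F k).Ω) {A : Matrix (Mon M D) (Mon M D) ℝ} (hA : ∀ v, 0 ≤ v ⬝ᵥ (A *ᵥ v))
    {j : Fin M} {σ : ℝ} (h : ej P k ω A j ≤ σ) : 1 + Jq (S.dl 1 k) A (P.v k ω) j j ≤ 2 ^ (2 * σ * (S.F k).n) := by
  have hn := (S.F k).pos
  have h1 := Jq_jj_nonneg (S.dl 1 k) hA (P.v k ω) j
  rw [← Real.logb_le_iff_le_rpow (by norm_num) (by linarith)]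
  unfold ej at h
  rw [div_le_iff₀ (by positivity)] at h
  linarith

theorem Jq_low (P : S.VV M) (k : ℕ) (ω : (S.F k).Ω) {A : Matrix (Mon M D) (Mon M D) ℝ} (hA : ∀ v, 0 ≤ v ⬝ᵥ (A *ᵥ v))
    {j : Fin M} {σ : ℝ} (h : σ ≤ ej P k ω A j) : 2 ^ (2 * σ * (S.F k).n) ≤ 1 + Jq (S.dl 1 k) A (P.v k ω) j j := by
  have hn := (S.F k).pos
  have h1 := Jq_jj_nonneg (S.dl 1 k) hA (P.v k ω) j
  rw [← Real.le_logb_iff_rpow_le (by norm_num) (by linarith)]
  unfold ej at h
  rw [le_div_iff₀ (by positivity)] at h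
  linarith

/-- the thickness from the exponents -/
theorem gam_typ {P : S.VV M} {A : κ → Part S} {x : ∀ k, FD (S.F k) (Mon M D)} (hx : (gaq P D).Adf A x) (σ : ℝ)
    (h : ∀ᶠ k in UF, ∀ ω, (x k).l.T.μ ω ≠ 0 → ∀ j, ej P k ((x k).l.p.π ω) ((x k).g ω) j ≤ σ) (δ : ℝ) (hδ : 0 < δ) :
    Tendsto (fun k => (x k).l.T.pb (fun ω =>
      ¬ gam (S.dl 1 k) ((x k).g ω) (P.v k ((x k).l.p.π ω)) ≤ 2 ^ (2 * (σ + δ) * (S.F k).n))) UF (𝓝 0) := by
  have hM : S.Sub (fun _ => (M : ℝ)) := S.Sub_const (Nat.cast_nonneg M)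
  refine tendsto_const_nhds.congr' ?_
  filter_upwards [h, hx 1 one_pos, hM.eventually_le (show (0 : ℝ) < 2 * δ by positivity)] with k h1 h2 h3
  symm
  unfold FSp.pb mass
  apply Finset.sum_eq_zero
  intro ω _
  by_cases hω : (x k).l.T.μ ω = 0
  · unfold res
    split_ifs
    · exact hω
    · rfl
  · apply res_neg
    rw [not_not, gam_eq]
    have hA := (h2.2.1 ω hω).1.psd.2
    calc ∑ j, Jq (S.dl 1 k) ((x k).g ω) (P.v k ((x k).l.p.π ω)) j j ≤ ∑ _j : Fin M, (2 : ℝ) ^ (2 * σ * (S.F k).n) := by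
          refine Finset.sum_le_sum fun j _ => ?_
          have := Jq_up P k _ hA (h1 ω hω j)
          linarith
      _ = M * 2 ^ (2 * σ * (S.F k).n) := by
          rw [Finset.sum_const, Finset.card_univ, Fintype.card_fin, nsmul_eq_mul]
      _ ≤ 2 ^ (2 * δ * (S.F k).n) * 2 ^ (2 * σ * (S.F k).n) := by
          apply mul_le_mul_of_nonneg_right _ (by positivity)
          linarith
      _ = _ := by
          rw [← Real.rpow_add (by norm_num)]
          congr 1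
          ring

/-- the size of an optimal form on the cells beyond its thickness -/
theorem phi_typ {P : S.VV M} {A : κ → Part S} {x : ∀ k, FD (S.F k) (Mon M D)} (hx : (gaq P D).Optf A x) (σ lam : ℝ)
    (h : ∀ᶠ k in UF, ∀ ω, (x k).l.T.μ ω ≠ 0 → ∀ j, ej P k ((x k).l.p.π ω) ((x k).g ω) j ≤ σ)
    (hl : σ < lam ∨ lam = 1) (e : ℝ) (he : 0 < e) :
    Tendsto (fun k => (x k).l.T.pb (fun ω =>
      ¬ phi (S.dl lam k) ((x k).g ω) (P.v k ((x k).l.p.π ω)) ≤ 2 ^ (e * (S.F k).n))) UF (𝓝 0) := by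
  have h1 : ∀ η : ℝ, 0 < η → Tendsto (fun k => (x k).l.T.pb (fun ω =>
      ¬ phi (S.dl 1 k) ((x k).g ω) (P.v k ((x k).l.p.π ω)) ≤ 2 ^ (η * (S.F k).n))) UF (𝓝 0) := by
    intro η hη
    rw [Metric.tendsto_nhds]
    intro ε hε
    filter_upwards [hx.1 (min η (ε / 2)) (lt_min hη (by linarith))] with k hk
    rw [Real.dist_eq, sub_zero, abs_of_nonneg ((x k).l.T.pb_nonneg _)]
    refine lt_of_le_of_lt (le_trans (FSp.pb_mono _ ?_) hk.2.2.1)
      (lt_of_le_of_lt (min_le_right _ _) (by linarith))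
    intro ω _ h3 h4
    apply h3
    have h5 : phi (S.dl 1 k) ((x k).g ω) (P.v k ((x k).l.p.π ω)) ≤ 2 ^ (min η (ε / 2) * (S.F k).n) := h4
    refine h5.trans ?_
    apply Real.rpow_le_rpow_of_exponent_le (by norm_num)
    exact mul_le_mul_of_nonneg_right (min_le_left _ _) (S.F k).pos.le
  rcases hl with hl | hl
  swap
  · rw [hl]
    exact h1 e he
  -- beyond the thickness
  set δ : ℝ := (lam - σ) / 2 with hδ
  have hδ0 : 0 < δ := by linarith
  have h2 := der_dom hx σ (gam_typ hx.1 σ h) δ hδ0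
  have h3 := (h1 (e / 2) (by linarith)).add h2
  rw [add_zero] at h3
  have hMs : S.Sub (fun _ => (M : ℝ)) := S.Sub_const (Nat.cast_nonneg M)
  have hNs : S.Sub (fun _ => ((Fintype.card (Fin M → Fin (D + 1)) : ℝ) * 10)) := S.Sub_const (by positivity)
  refine tendsto_of_tendsto_of_tendsto_of_le_of_le' tendsto_const_nhds h3
    (Eventually.of_forall fun k => (x k).l.T.pb_nonneg _) ?_
  filter_upwards [hx.1 1 one_pos, hMs.eventually_le hδ0, hNs.eventually_le (show (0 : ℝ) < e / 2 by linarith)] with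
    k c1 c2 c3
  have hn := (S.F k).pos
  refine le_trans (FSp.pb_mono _ (E' := fun ω =>
    (¬ phi (S.dl 1 k) ((x k).g ω) (P.v k ((x k).l.p.π ω)) ≤ 2 ^ (e / 2 * (S.F k).n)) ∨
    ¬ ∀ (i : Fin M) (v : Mon M D → ℝ), qf ((x k).g ω) (Tm i *ᵥ v) ≤
      (2 ^ ((σ + δ) * (S.F k).n)) ^ 2 * qf ((x k).g ω) v) ?_) (pb_or _ _ _)
  intro ω hω h4
  by_contra hcon
  rw [not_or, not_not, not_not] at hcon
  apply h4
  obtain ⟨h5, h6⟩ := hcon
  have hcp := (c1.2.1 ω hω).1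
  have hA : PdM ((x k).g ω) := hcp.pdM
  set A₀ := (x k).g ω with hA₀
  set p := P.v k ((x k).l.p.π ω) with hp
  set r := S.dl lam k with hr
  have hr0 : 0 < r := S.dl_pos lam k
  set B : ℝ := 2 ^ ((σ + δ) * (S.F k).n) with hB
  have hB0 : 0 < B := by positivity
  have hBr : B * r = 2 ^ (-(δ * (S.F k).n)) := by
    rw [hB, hr]
    unfold Sp.dl
    rw [← Real.rpow_add (by norm_num)]
    congr 1
    rw [hδ]
    ring
  have hK : (M : ℝ) * B * r ≤ 1 := by
    rw [mul_assoc, hBr]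
    calc (M : ℝ) * 2 ^ (-(δ * (S.F k).n)) ≤ 2 ^ (δ * (S.F k).n) * 2 ^ (-(δ * (S.F k).n)) := by
          apply mul_le_mul_of_nonneg_right _ (by positivity)
          linarith
      _ = 1 := by
          rw [← Real.rpow_add (by norm_num)]
          simp
  have hH0 : (0 : ℝ) ≤ 2 ^ (e / 2 * (S.F k).n) := by positivity
  have hpp : qf A₀ (vv p) ≤ 2 ^ (e / 2 * (S.F k).n) := by
    refine le_trans ?_ h5
    have e2 : nodp D p (S.dl 1 k) (fun _ => 0) = p := by
      funext i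
      unfold nodp nod
      simp
    unfold phi
    refine le_trans (le_of_eq ?_) (Finset.single_le_sum (f := fun j => vv (nodp D p (S.dl 1 k) j) ⬝ᵥ
      (A₀ *ᵥ vv (nodp D p (S.dl 1 k) j))) (fun j _ => hA.nonneg _) (Finset.mem_univ (fun _ => 0)))
    show _ = vv (nodp D p (S.dl 1 k) (fun _ => 0)) ⬝ᵥ (A₀ *ᵥ vv (nodp D p (S.dl 1 k) (fun _ => 0)))
    rw [e2]
    rfl
  have hnode : ∀ j : Fin M → Fin (D + 1), vv (nodp D p r j) ⬝ᵥ (A₀ *ᵥ vv (nodp D p r j)) ≤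
      10 * 2 ^ (e / 2 * (S.F k).n) := by
    intro j
    have a1 := pt_close hA B r _ hr0.le hB0.le h6 hK (S.dl 1 k) p h5 (nodp D p r j) (fun i => by
      unfold nodp
      rw [add_sub_cancel_left, abs_mul, abs_of_pos hr0]
      have h6 : |nod D (j i)| ≤ 1 := by
        unfold nod
        rw [abs_of_nonneg (by positivity), div_le_one (by positivity)]
        have := (j i).2
        have h7 : ((j i : ℕ) : ℝ) ≤ D := by exact_mod_cast Nat.lt_succ_iff.mp this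
        linarith
      calc r * |nod D (j i)| ≤ r * 1 := mul_le_mul_of_nonneg_left h6 hr0.le
        _ = r := mul_one r)
    have a2 := qf_dif (fun v => hA.nonneg v) hA.1 (vv (nodp D p r j)) (vv p) 0
    rw [sub_zero, zero_sub, show qf A₀ (-vv p) = qf A₀ (vv p) by
      unfold qf
      rw [neg_dotProduct, Matrix.mulVec_neg, dotProduct_neg, neg_neg]] at a2
    have a3 : (2 * ((M : ℝ) * B * r)) ^ 2 ≤ 4 := by
      have : 0 ≤ (M : ℝ) * B * r := by positivity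
      nlinarith
    have a4 : (2 * ((M : ℝ) * B * r)) ^ 2 * 2 ^ (e / 2 * (S.F k).n) ≤ 4 * 2 ^ (e / 2 * (S.F k).n) :=
      mul_le_mul_of_nonneg_right a3 hH0
    have a5 : vv (nodp D p r j) ⬝ᵥ (A₀ *ᵥ vv (nodp D p r j)) = qf A₀ (vv (nodp D p r j)) := rfl
    rw [a5]
    linarith
  calc phi r A₀ p ≤ ∑ _j : Fin M → Fin (D + 1), 10 * (2 : ℝ) ^ (e / 2 * (S.F k).n) :=
        Finset.sum_le_sum fun j _ => hnode j
    _ = (Fintype.card (Fin M → Fin (D + 1)) : ℝ) * 10 * 2 ^ (e / 2 * (S.F k).n) := by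
        rw [Finset.sum_const, Finset.card_univ, nsmul_eq_mul]
        ring
    _ ≤ 2 ^ (e / 2 * (S.F k).n) * 2 ^ (e / 2 * (S.F k).n) := by
        apply mul_le_mul_of_nonneg_right _ (by positivity)
        linarith
    _ = 2 ^ (e * (S.F k).n) := by
        rw [← Real.rpow_add (by norm_num)]
        congr 1
        ring

/-- labels without information do not change entropies -/
theorem H_up1_con (l : Lab S) (hl : Nul S (fun k => (l k).info)) (x : S.L) : H (up1 l x) = H x := by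
  have h1 : Nul S (fun k => (l k).leak (rp (⊥ : S.L) k)) := by
    refine hl.of_le (Eventually.of_forall fun k => (l k).leak_nonneg _) (Eventually.of_forall fun k => ?_)
    rw [← (l k).leak_bot]
    exact (l k).leak_anti bot_le
  have h2 := Lab.h_upL_of_leak (l := l) 1 one_pos (A := ⊥) (x := x) (y := ⊥) h1 le_rfl
  rw [div_one, l.upL_bot, h_bot, h_bot] at h2
  exact h2

theorem osp_typ (l : Lab S) {E : ∀ k, (l k).T.Ω → Prop} (h : Tendsto (fun k => (l k).T.pb (fun ω => ¬ E k ω)) UF (𝓝 0)) :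
    Typ (S := osp l) E := h

/-- count over the label: the form on coarser cells -/
theorem cnt_two [Countable ι] {s : MSys S M E ι} (hc : s.Con 0) {x : ∀ k, FD (S.F k) (Mon M D)} (hD : 1 ≤ D)
    (hx : (gaq s.Q D).Optf (s.cnd 0) x) (σ lam v : ℝ) (h0 : 0 ≤ lam) (h1 : lam ≤ 1)
    (h : ∀ᶠ k in UF, ∀ ω, (x k).l.T.μ ω ≠ 0 → ∀ j, ej s.Q k ((x k).l.p.π ω) ((x k).g ω) j ≤ σ)
    (hl : σ < lam ∨ lam = 1)
    (hv : ∀ᶠ k in UF, ∀ ω, (x k).l.T.μ ω ≠ 0 → v ≤ gx s.Q k ((x k).l.p.π ω) ((x k).g ω)) :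
    H (s.Q.dg lam) ≤ M * lam - v := by
  have h2 := phi_typ hx σ lam h hl
  have h3 := cnt_form (S := osp (lb x)) hD (oQ (lb x) s.Q) lam h0 h1 (fun k (ω : (x k).l.T.Ω) => (x k).g ω) (by
      filter_upwards [hx.1 1 one_pos] with k hk ω hω
      exact ⟨(hk.2.1 ω hω).1.1, (hk.2.1 ω hω).1.2.1⟩) (by
      refine Eventually.of_forall fun k ω ω' a a' g => ?_
      exact ((x k).meas ω ω' a a' g.1 g.2).1) v (by
      filter_upwards [hx.1 1 one_pos, hv] with k hk h4 ω hω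
      have hn := (S.F k).pos
      have h5 := one_le_GQ (S.dl 1 k) (hk.2.1 ω hω).1.1 (hk.2.1 ω hω).1.psd.2 (s.Q.v k ((x k).l.p.π ω))
      have h6 := h4 ω hω
      unfold gx at h6
      rw [le_div_iff₀ (by positivity)] at h6
      rw [osp_dl, Pool.Agent.Helper14.MC.osp_n]
      show (2 : ℝ) ^ (2 * v * (S.F k).n) ≤ GQ (S.dl 1 k) ((x k).g ω) (s.Q.v k ((x k).l.p.π ω))
      rw [← Real.le_logb_iff_rpow_le (by norm_num) (by linarith)]
      linarith) (by
      intro e he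
      apply osp_typ
      refine (h2 e he).congr fun k => ?_
      congr 1
      funext ω
      rw [osp_dl, Pool.Agent.Helper14.MC.osp_n]
      rfl)
  rw [oQ_dg, H_u1] at h3
  exact (H_up1_con (lb x) (hc (lb x) (Gau.Adf.dm _ hx.1)) (s.Q.dg lam)).symm.le.trans h3

/-- count over the label: a set of small mass -/
theorem cnt_two_set [Countable ι] {s : MSys S M E ι} (hc : s.Con 0) {x : ∀ k, FD (S.F k) (Mon M D)}
    (hx : (gaq s.Q D).Optf (s.cnd 0) x) (lam v m C : ℝ) (hC : 0 < C) (h0 : 0 ≤ lam) (h1 : lam ≤ 1)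
    (Us : ∀ _ : ℕ, Matrix (Mon M D) (Mon M D) ℝ → Set (Fin M → ℝ)) (hUm : ∀ k A, MeasurableSet (Us k A))
    (hv : ∀ᶠ k in UF, ∀ ω, (x k).l.T.μ ω ≠ 0 → v ≤ gx s.Q k ((x k).l.p.π ω) ((x k).g ω))
    (hm : ∀ᶠ k in UF, ∀ ω, (x k).l.T.μ ω ≠ 0 → ∫⁻ z in Us k ((x k).g ω),
      ENNReal.ofReal (Real.sqrt (GQ (S.dl lam k) ((x k).g ω) z)) ≤ ENNReal.ofReal (C * 2 ^ (m * (S.F k).n)))
    (hQ : ∀ᶠ k in UF, ∀ ω, (x k).l.T.μ ω ≠ 0 →
      Q (S.dl lam k) (fun i => ⌊s.Q.v k ((x k).l.p.π ω) i / S.dl lam k⌋) ⊆ Us k ((x k).g ω)) :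
    H (s.Q.dg lam) ≤ M * lam + (m - v) := by
  have h3 := cnt_set (S := osp (lb x)) (oQ (lb x) s.Q) lam h0 h1 (fun k (ω : (x k).l.T.Ω) => (x k).g ω) (by
      filter_upwards [hx.1 1 one_pos] with k hk ω hω
      exact (hk.2.1 ω hω).1.pdM) (fun k (ω : (x k).l.T.Ω) => Us k ((x k).g ω))
      (Eventually.of_forall fun k ω _ => hUm k _) (by
      refine Eventually.of_forall fun k ω ω' a a' g => ?_
      have e1 : (x k).g ω = (x k).g ω' := ((x k).meas ω ω' a a' g.1 g.2).1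
      exact ⟨e1, by rw [e1]⟩) (fun _ _ => True) Typ_true v m C hC (by
      filter_upwards [hx.1 1 one_pos, hv] with k hk h4 ω hω _
      have hn := (S.F k).pos
      have h5 := one_le_GQ (S.dl 1 k) (hk.2.1 ω hω).1.1 (hk.2.1 ω hω).1.psd.2 (s.Q.v k ((x k).l.p.π ω))
      have h6 := h4 ω hω
      unfold gx at h6
      rw [le_div_iff₀ (by positivity)] at h6
      rw [osp_dl, Pool.Agent.Helper14.MC.osp_n]
      show (2 : ℝ) ^ (2 * v * (S.F k).n) ≤ GQ (S.dl 1 k) ((x k).g ω) (s.Q.v k ((x k).l.p.π ω))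
      rw [← Real.le_logb_iff_rpow_le (by norm_num) (by linarith)]
      linarith) (by
      filter_upwards [hm] with k hk ω hω
      rw [osp_dl, Pool.Agent.Helper14.MC.osp_n]
      exact hk ω hω) (by
      filter_upwards [hQ] with k hk ω hω _
      rw [osp_dl]
      exact hk ω hω)
  rw [oQ_dg, H_u1] at h3
  exact (H_up1_con (lb x) (hc (lb x) (Gau.Adf.dm _ hx.1)) (s.Q.dg lam)).symm.le.trans h3

end

end Pool.Agent.Helper48.DGR
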