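import Pool.Agent.Helper48.DGR.Two

/-! Row DGR: events on which the exponents of two forms are constant. -/

set_option autoImplicit false

namespace Pool.Agent.Helper48.DGR

open Finset Filter Topology Matrix MeasureTheory Pool.Agent.Helper69.RK Pool.Agent.Helper31.EC
open Pool.Agent.Helper31.EC.Sp
open Pool.Agent.Helper40.EL Pool.Agent.Helper89.LX Pool.Agent.Helper3.LF Pool.Agent.Helper84.MT Pool.Agent.Helper59.LF
open Pool.Agent.Helper95.LF (PdM det_gain self_pos dv_add)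
open Pool.Agent.Helper14.MC (gx vx vol_eq vx_UB)

noncomputable section

/-- one class of a finite partition has positive probability -/
theorem exists_class {T : Sp} {ζ : Type} [Fintype ζ] (U : ∀ k, (T.F k).Ω → Prop) (hU : 0 < ul (T.pr U))
    (c : ∀ k, (T.F k).Ω → ζ) : ∃ z, 0 < ul (T.pr fun k ω => U k ω ∧ c k ω = z) := by
  classical
  have key : ∀ Z : Finset ζ, 0 < ul (T.pr fun k ω => U k ω ∧ c k ω ∈ Z) →
      ∃ z, 0 < ul (T.pr fun k ω => U k ω ∧ c k ω = z) := by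
    intro Z
    induction Z using Finset.induction_on with
    | empty =>
      intro h
      exfalso
      have h1 : (T.pr fun k ω => U k ω ∧ c k ω ∈ (∅ : Finset ζ)) = fun _ => 0 := by
        funext k
        show (T.F k).pb _ = 0
        unfold FSp.pb mass
        apply Finset.sum_eq_zero
        intro ω _
        apply res_neg
        rintro ⟨_, h2⟩
        exact absurd h2 (Finset.notMem_empty _)
      rw [h1, ul_const] at h
      exact lt_irrefl _ h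
    | insert z Z _ ih =>
      intro h
      by_cases hz : 0 < ul (T.pr fun k ω => U k ω ∧ c k ω = z)
      · exact ⟨z, hz⟩
      · apply ih
        have h1 : ul (T.pr fun k ω => U k ω ∧ c k ω ∈ insert z Z) ≤
            ul (fun k => T.pr (fun k ω => U k ω ∧ c k ω = z) k + T.pr (fun k ω => U k ω ∧ c k ω ∈ Z) k) := by
          apply ul_mono (UB_pr _) ((UB_pr _).add (UB_pr _))
          refine Eventually.of_forall fun k => ?_
          show (T.F k).pb _ ≤ (T.F k).pb _ + (T.F k).pb _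
          refine le_trans ((T.F k).pb_mono ?_) (pb_or _ _ _)
          rintro ω _ ⟨h2, h3⟩
          rcases Finset.mem_insert.mp h3 with h4 | h4
          · exact Or.inl ⟨h2, h4⟩
          · exact Or.inr ⟨h2, h4⟩
        rw [ul_add (UB_pr _) (UB_pr _)] at h1
        linarith
  apply key Finset.univ
  have h1 : (T.pr fun k ω => U k ω ∧ c k ω ∈ (Finset.univ : Finset ζ)) = T.pr U := by
    funext k
    show (T.F k).pb _ = (T.F k).pb _
    congr 1
    funext ω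
    simp
  rw [h1]
  exact hU

variable {S : Sp} {M D D' : ℕ} {E : ℕ → ℕ} {ι : Type}

/-- the exponent of the entry `(j, j)` -/
def ej (Q : S.VV M) {D : ℕ} (k : ℕ) (ω : (S.F k).Ω) (A : Matrix (Mon M D) (Mon M D) ℝ) (j : Fin M) : ℝ :=
  Real.logb 2 (1 + Jq (S.dl 1 k) A (Q.v k ω) j j) / (2 * (S.F k).n)

theorem Jq_jj (r : ℝ) (A : Matrix (Mon M D) (Mon M D) ℝ) (p : Fin M → ℝ) (j : Fin M) :
    (Pi.single j 1 : Fin M → ℝ) ⬝ᵥ (Jq r A p *ᵥ (Pi.single j 1 : Fin M → ℝ)) = Jq r A p j j := by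
  rw [single_one_dotProduct, Matrix.mulVec_single_one]
  rfl

theorem Jq_jj_nonneg (r : ℝ) {A : Matrix (Mon M D) (Mon M D) ℝ} (hA : ∀ v, 0 ≤ v ⬝ᵥ (A *ᵥ v)) (p : Fin M → ℝ)
    (j : Fin M) : 0 ≤ Jq r A p j j := by
  rw [← Jq_jj]
  exact Jq_nonneg r hA p _

/-- the entries are at most the determinant -/
theorem Jq_le_GQ (r : ℝ) {A : Matrix (Mon M D) (Mon M D) ℝ} (hs : A.IsSymm) (hA : ∀ v, 0 ≤ v ⬝ᵥ (A *ᵥ v))
    (p : Fin M → ℝ) (j : Fin M) : 1 + Jq r A p j j ≤ GQ r A p := by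
  have h1 : PdM (1 : Matrix (Fin M) (Fin M) ℝ) := ⟨one_symm, fun v hv => by
    rw [one_dv]
    exact self_pos hv⟩
  have h2 := det_gain (c := 1 + Jq r A p j j) (y := (Pi.single j 1 : Fin M → ℝ)) h1 (one_Jq_symm r hs p)
    (fun v => by
      rw [one_dv]
      exact one_Jq_ge r hA p v) (by
      intro h
      have := congrFun h j
      simp at this) (by
      rw [one_dv, dv_add, one_dv, Jq_jj, single_one_dotProduct]
      simp)
  rw [Matrix.det_one, mul_one] at h2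
  exact h2

theorem ej_nonneg (Q : S.VV M) {D : ℕ} (k : ℕ) (ω : (S.F k).Ω) {A : Matrix (Mon M D) (Mon M D) ℝ}
    (hA : ∀ v, 0 ≤ v ⬝ᵥ (A *ᵥ v)) (j : Fin M) : 0 ≤ ej Q k ω A j := by
  have hn := (S.F k).pos
  apply div_nonneg _ (by positivity)
  apply Real.logb_nonneg (by norm_num)
  have := Jq_jj_nonneg (S.dl 1 k) hA (Q.v k ω) j
  linarith

theorem ej_le_gx (Q : S.VV M) {D : ℕ} (k : ℕ) (ω : (S.F k).Ω) {A : Matrix (Mon M D) (Mon M D) ℝ}
    (hs : A.IsSymm) (hA : ∀ v, 0 ≤ v ⬝ᵥ (A *ᵥ v)) (j : Fin M) : ej Q k ω A j ≤ gx Q k ω A := by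
  have hn := (S.F k).pos
  apply div_le_div_of_nonneg_right _ (by positivity)
  apply Real.logb_le_logb_of_le (by norm_num)
  · have := Jq_jj_nonneg (S.dl 1 k) hA (Q.v k ω) j
    linarith
  · exact Jq_le_GQ _ hs hA _ _

/-- the exponents of the two forms are constant up to `ε` -/
structure Cls {s : MSys S M E ι} (t : Two s D D') (ε : ℝ) (a b : Fin M → ℝ) (va vb : ℝ) : Prop where
  ea : ∀ᶠ k in UF, ∀ ω, (t.l k).T.μ ω ≠ 0 → ∀ j, a j ≤ ej s.Q k ((t.l k).p.π ω) (t.A k ω) j ∧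
    ej s.Q k ((t.l k).p.π ω) (t.A k ω) j ≤ a j + ε
  eb : ∀ᶠ k in UF, ∀ ω, (t.l k).T.μ ω ≠ 0 → ∀ j, b j ≤ ej s.Q k ((t.l k).p.π ω) (t.B k ω) j ∧
    ej s.Q k ((t.l k).p.π ω) (t.B k ω) j ≤ b j + ε
  ga : ∀ᶠ k in UF, ∀ ω, (t.l k).T.μ ω ≠ 0 → va ≤ gx s.Q k ((t.l k).p.π ω) (t.A k ω) ∧
    gx s.Q k ((t.l k).p.π ω) (t.A k ω) ≤ va + ε
  gb : ∀ᶠ k in UF, ∀ ω, (t.l k).T.μ ω ≠ 0 → vb ≤ gx s.Q k ((t.l k).p.π ω) (t.B k ω) ∧
    gx s.Q k ((t.l k).p.π ω) (t.B k ω) ≤ vb + ε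

theorem Cls.re {s : MSys S M E ι} {t : Two s D D'} {ε : ℝ} {a b : Fin M → ℝ} {va vb : ℝ} (h : Cls t ε a b va vb)
    (U : ∀ k, (t.l.sp.F k).Ω → Prop) (hU : 0 < ul (t.l.sp.pr U)) : Cls (t.re U hU) ε a b va vb where
  ea := by
    filter_upwards [h.ea] with k hk ω hω using hk ω ((t.l k).T.rest_supp (U k) ω hω).1
  eb := by
    filter_upwards [h.eb] with k hk ω hω using hk ω ((t.l k).T.rest_supp (U k) ω hω).1
  ga := by
    filter_upwards [h.ga] with k hk ω hω using hk ω ((t.l k).T.rest_supp (U k) ω hω).1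
  gb := by
    filter_upwards [h.gb] with k hk ω hω using hk ω ((t.l k).T.rest_supp (U k) ω hω).1

theorem mul_sum_ge {F : FSp} (f : F.Ω → ℝ) {c : ℝ} (h : ∀ ω, F.μ ω ≠ 0 → c ≤ f ω) : c ≤ ∑ ω, F.μ ω * f ω := by
  have h1 : ∑ ω, F.μ ω * c = c := by
    rw [← Finset.sum_mul]
    have h2 : ∑ ω, F.μ ω = 1 := F.ms
    rw [h2, one_mul]
  calc c = ∑ ω, F.μ ω * c := h1.symm
    _ ≤ _ := by
      refine Finset.sum_le_sum fun ω _ => ?_
      by_cases h0 : F.μ ω = 0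
      · rw [h0, zero_mul, zero_mul]
      · exact mul_le_mul_of_nonneg_left (h ω h0) (F.nn ω)

/-- the volume from constant exponents -/
theorem vol_of_gx {Q : S.VV M} {κ : Type} {A : κ → Part S} {x : ∀ k, FD (S.F k) (Mon M D)} (hx : (gaq Q D).Adf A x)
    {v ε : ℝ} (h : ∀ᶠ k in UF, ∀ ω, (x k).l.T.μ ω ≠ 0 → v ≤ gx Q k ((x k).l.p.π ω) ((x k).g ω) ∧
      gx Q k ((x k).l.p.π ω) ((x k).g ω) ≤ v + ε) : M - v - ε ≤ vol Q D x ∧ vol Q D x ≤ M - v := by
  have hU := vx_UB hx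
  have h1 : v ≤ ul (vx Q x) := by
    apply const_le_ul hU
    filter_upwards [h] with k hk
    exact mul_sum_ge _ fun ω hω => (hk ω hω).1
  have h2 : ul (vx Q x) ≤ v + ε := by
    apply ul_le_const hU
    filter_upwards [h] with k hk
    exact sum_mul_le _ _ fun ω hω => (hk ω hω).2
  rw [vol_eq]
  constructor <;> linarith

theorem gexp {s : MSys S M E ι} {t : Two s D D'} {ε : ℝ} {a b : Fin M → ℝ} {va vb : ℝ} (h : Cls t ε a b va vb) :
    ∀ᶠ k in UF, ∀ ω, (t.l k).T.μ ω ≠ 0 → (2 : ℝ) ^ (2 * vb * (S.F k).n) ≤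
      GQ (S.dl 1 k) (t.B k ω) (s.Q.v k ((t.l k).p.π ω)) ∨ GQ (S.dl 1 k) (t.B k ω) (s.Q.v k ((t.l k).p.π ω)) ≤ 0 := by
  filter_upwards [h.gb] with k hk ω hω
  by_cases h0 : GQ (S.dl 1 k) (t.B k ω) (s.Q.v k ((t.l k).p.π ω)) ≤ 0
  · exact Or.inr h0
  left
  have hn := (S.F k).pos
  have h1 := (hk ω hω).1
  unfold gx at h1
  rw [le_div_iff₀ (by positivity)] at h1
  rw [← Real.le_logb_iff_rpow_le (by norm_num) (not_le.mp h0)]
  linarith

/-- selection of a class -/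
theorem exists_cls [Finite ι] {s : MSys S M E ι} (t : Two s D D') {h : D ≤ D'} (ht : t.Ok h) {Δ : ℝ} (hΔ : 0 < Δ)
    (hv : vol s.Q D' t.y + Δ ≤ vol s.Q D t.x) {ε : ℝ} (hε : 0 < ε) :
    ∃ (U : ∀ k, (t.l.sp.F k).Ω → Prop) (hU : 0 < ul (t.l.sp.pr U)) (a b : Fin M → ℝ) (va vb : ℝ),
      Cls (t.re U hU) ε a b va vb ∧ va + Δ / 2 ≤ vb + ε := by
  classical
  obtain ⟨C1, hC1, hb1⟩ := gx_bd ht.canA.1.1
  obtain ⟨C2, hC2, hb2⟩ := gx_bd ht.optB.1
  set C : ℝ := C1 + C2 with hC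
  set N : ℕ := ⌊C / ε⌋₊ with hN
  -- the event on which the exponents are different
  set fA : ∀ k, (t.l k).T.Ω → ℝ := fun k ω => gx s.Q k ((t.l k).p.π ω) (t.A k ω) with hfA
  set fB : ∀ k, (t.l k).T.Ω → ℝ := fun k ω => gx s.Q k ((t.l k).p.π ω) (t.B k ω) with hfB
  have hb1' : ∀ᶠ k in UF, ∀ ω, (t.l k).T.μ ω ≠ 0 → 0 ≤ fA k ω ∧ fA k ω ≤ C1 := hb1
  have hb2' : ∀ᶠ k in UF, ∀ ω, (t.l k).T.μ ω ≠ 0 → 0 ≤ fB k ω ∧ fB k ω ≤ C2 := hb2
  set U0 : ∀ k, (t.l.sp.F k).Ω → Prop := fun k ω => Δ / 2 ≤ fB k ω - fA k ω with hU0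
  have hCp : 0 < C2 + 1 := by linarith
  have hpos : 0 < ul (t.l.sp.pr U0) := by
    have h1 : ul (vx s.Q t.y) - ul (vx s.Q t.x) = vol s.Q D t.x - vol s.Q D' t.y := by
      rw [vol_eq, vol_eq]
      ring
    have hUx := vx_UB ht.canA.1.1
    have hUy := vx_UB ht.optB.1
    have h2 : Δ ≤ ul (fun k => vx s.Q t.y k - vx s.Q t.x k) := by
      rw [ul_sub hUy hUx, h1]
      linarith
    have h3 : ul (fun k => vx s.Q t.y k - vx s.Q t.x k) ≤ ul (fun k => Δ / 2 + (C2 + 1) * t.l.sp.pr U0 k) := by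
      apply ul_mono (hUy.sub hUx) ((UB_const _).add ((UB_pr U0).const_mul _))
      filter_upwards [hb1', hb2'] with k c1 c2
      have e1 : vx s.Q t.y k - vx s.Q t.x k = ∑ ω, (t.l k).T.μ ω * (fB k ω - fA k ω) := by
        rw [show vx s.Q t.y k = ∑ ω, (t.l k).T.μ ω * fB k ω from rfl,
          show vx s.Q t.x k = ∑ ω, (t.l k).T.μ ω * fA k ω from rfl, ← Finset.sum_sub_distrib]
        exact Finset.sum_congr rfl fun ω _ => by ring
      rw [e1]
      have e2 := Pool.Agent.Helper59.EV.sum_split_le (F := (t.l k).T) (fun ω => fB k ω - fA k ω)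
        (fun ω => ¬ U0 k ω) (Δ / 2) (C2 + 1) (by positivity) hCp.le (by
          intro ω hω hE
          exact (not_le.mp hE).le) (by
          intro ω hω
          have := c1 ω hω
          have := c2 ω hω
          linarith)
      refine e2.trans (le_of_eq ?_)
      congr 2
      show (t.l k).T.pb (fun ω => ¬ ¬ U0 k ω) = (t.l k).T.pb (U0 k)
      congr 1
      funext ω
      exact propext not_not
    rw [ul_add (UB_const _) ((UB_pr U0).const_mul _), ul_const, ul_const_mul _ (UB_pr U0)] at h3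
    have h4 : 0 < (C2 + 1) * ul (t.l.sp.pr U0) := by linarith
    exact (mul_pos_iff_of_pos_left hCp).mp h4
  -- the classes
  set q : ℝ → ℕ := fun v => ⌊v / ε⌋₊ with hq
  have hqb : ∀ v : ℝ, 0 ≤ v → v ≤ C → q v < N + 1 := fun v h0 h1 =>
    Nat.lt_succ_of_le (Nat.floor_le_floor (div_le_div_of_nonneg_right h1 hε.le))
  have hqs : ∀ v : ℝ, 0 ≤ v → (q v : ℝ) * ε ≤ v ∧ v ≤ (q v : ℝ) * ε + ε := by
    intro v h0
    have h1 : 0 ≤ v / ε := div_nonneg h0 hε.le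
    have h2 := Nat.floor_le h1
    have h3 := Nat.lt_floor_add_one (v / ε)
    rw [le_div_iff₀ hε] at h2
    rw [div_lt_iff₀ hε, add_mul, one_mul] at h3
    exact ⟨h2, h3.le⟩
  set z : ℝ → Fin (N + 1) := fun v => ⟨min (q v) N, Nat.lt_succ_of_le (min_le_right _ _)⟩ with hz
  have hzs : ∀ v : ℝ, 0 ≤ v → v ≤ C → ((z v : ℕ) : ℝ) * ε ≤ v ∧ v ≤ ((z v : ℕ) : ℝ) * ε + ε := by
    intro v h0 h1
    have e1 : (z v : ℕ) = q v := min_eq_left (Nat.lt_succ_iff.mp (hqb v h0 h1))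
    rw [e1]
    exact hqs v h0
  set cl : ∀ k, (t.l.sp.F k).Ω → (Fin M → Fin (N + 1)) × (Fin M → Fin (N + 1)) × Fin (N + 1) × Fin (N + 1) :=
    fun k ω => (fun j => z (ej s.Q k ((t.l k).p.π ω) (t.A k ω) j), fun j => z (ej s.Q k ((t.l k).p.π ω) (t.B k ω) j),
      z (fA k ω), z (fB k ω)) with hcl
  obtain ⟨w, hw⟩ := exists_class U0 hpos cl
  set U : ∀ k, (t.l.sp.F k).Ω → Prop := fun k ω => U0 k ω ∧ cl k ω = w with hUd
  refine ⟨U, hw, fun j => ((w.1 j : ℕ) : ℝ) * ε, fun j => ((w.2.1 j : ℕ) : ℝ) * ε, ((w.2.2.1 : ℕ) : ℝ) * ε,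
    ((w.2.2.2 : ℕ) : ℝ) * ε, ?_, ?_⟩
  · have hp0 : ∀ᶠ k in UF, (t.l k).T.pb (U k) ≠ 0 := by
      filter_upwards [eventually_gt_of_lt_ul (UB_pr U) hw] with k hk
      exact ne_of_gt hk
    have hcapA : ∀ᶠ k in UF, ∀ ω, (t.l k).T.μ ω ≠ 0 → Cpd ((gaq s.Q D).cp k) (t.A k ω) := by
      filter_upwards [ht.canA.1.1 1 one_pos] with k hk ω hω using (hk.2.1 ω hω).1
    have hcapB : ∀ᶠ k in UF, ∀ ω, (t.l k).T.μ ω ≠ 0 → Cpd ((gaq s.Q D').cp k) (t.B k ω) := by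
      filter_upwards [ht.optB.1 1 one_pos] with k hk ω hω using (hk.2.1 ω hω).1
    constructor
    · filter_upwards [hb1', hcapA, hp0] with k c1 c2 c0 ω hω j
      obtain ⟨s1, s2⟩ := (t.l k).T.rest_supp (U k) ω hω
      have s3 : cl k ω = w := (s2 c0).2
      have s4 : z (ej s.Q k ((t.l k).p.π ω) (t.A k ω) j) = w.1 j := by
        rw [← s3]
      have n0 := ej_nonneg s.Q k ((t.l k).p.π ω) (c2 ω s1).psd.2 j
      have n1 := ej_le_gx s.Q k ((t.l k).p.π ω) (c2 ω s1).1 (c2 ω s1).psd.2 j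
      have n2 := (c1 ω s1).2
      have n3 := hzs _ n0 (n1.trans (n2.trans (by linarith)))
      rw [s4] at n3
      exact n3
    · filter_upwards [hb2', hcapB, hp0] with k c1 c2 c0 ω hω j
      obtain ⟨s1, s2⟩ := (t.l k).T.rest_supp (U k) ω hω
      have s3 : cl k ω = w := (s2 c0).2
      have s4 : z (ej s.Q k ((t.l k).p.π ω) (t.B k ω) j) = w.2.1 j := by
        rw [← s3]
      have n0 := ej_nonneg s.Q k ((t.l k).p.π ω) (c2 ω s1).psd.2 j
      have n1 := ej_le_gx s.Q k ((t.l k).p.π ω) (c2 ω s1).1 (c2 ω s1).psd.2 j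
      have n2 := (c1 ω s1).2
      have n3 := hzs _ n0 (n1.trans (n2.trans (by linarith)))
      rw [s4] at n3
      exact n3
    · filter_upwards [hb1', hp0] with k c1 c0 ω hω
      obtain ⟨s1, s2⟩ := (t.l k).T.rest_supp (U k) ω hω
      have s3 : cl k ω = w := (s2 c0).2
      have s4 : z (fA k ω) = w.2.2.1 := by
        rw [← s3]
      have n0 := c1 ω s1
      have n3 := hzs _ n0.1 (n0.2.trans (by linarith))
      rw [s4] at n3
      exact n3
    · filter_upwards [hb2', hp0] with k c1 c0 ω hω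
      obtain ⟨s1, s2⟩ := (t.l k).T.rest_supp (U k) ω hω
      have s3 : cl k ω = w := (s2 c0).2
      have s4 : z (fB k ω) = w.2.2.2 := by
        rw [← s3]
      have n0 := c1 ω s1
      have n3 := hzs _ n0.1 (n0.2.trans (by linarith))
      rw [s4] at n3
      exact n3
  · have h1 : ∀ᶠ k in UF, 0 < (t.l k).T.pb (U k) := eventually_gt_of_lt_ul (UB_pr U) hw
    obtain ⟨k, hk1, hk2, hk3⟩ := (h1.and (hb1'.and hb2')).exists
    have h2 : ∃ ω, (t.l k).T.μ ω ≠ 0 ∧ U k ω := by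
      by_contra hcon
      push Not at hcon
      have h3 : (t.l k).T.pb (U k) = 0 := by
        unfold FSp.pb mass
        apply Finset.sum_eq_zero
        intro ω _
        by_cases h4 : (t.l k).T.μ ω = 0
        · unfold res
          split_ifs
          · exact h4
          · rfl
        · exact res_neg _ _ _ (hcon ω h4)
      linarith
    obtain ⟨ω, hω, hω1, hω2⟩ := h2
    have s4 : z (fA k ω) = w.2.2.1 := by
      rw [← hω2]
    have s5 : z (fB k ω) = w.2.2.2 := by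
      rw [← hω2]
    have n0 := hk2 ω hω
    have n1 := hk3 ω hω
    have n3 := hzs _ n0.1 (n0.2.trans (by linarith))
    have n4 := hzs _ n1.1 (n1.2.trans (by linarith))
    rw [s4] at n3
    rw [s5] at n4
    have n5 : Δ / 2 ≤ fB k ω - fA k ω := hω1
    linarith [n3.1, n4.2]

end

end Pool.Agent.Helper48.DGR
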