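import Pool.Agent.Helper48.DGR.Pt

/-! Row DGR: the contradiction on a class of constant exponents. -/

set_option autoImplicit false

namespace Pool.Agent.Helper48.DGR

open Finset Filter Topology Matrix MeasureTheory Pool.Agent.Helper69.RK Pool.Agent.Helper31.EC
open Pool.Agent.Helper31.EC.Sp
open Pool.Agent.Helper40.EL Pool.Agent.Helper89.LX Pool.Agent.Helper84.MT Pool.Agent.Helper59.LF
open Pool.Agent.Helper3.LF hiding lin
open Pool.Agent.Helper95.LF (PdM exists_factor self_pos)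
open Pool.Agent.Helper14.MC (gx vx vol_eq vx_UB)
open Pool.Agent.Helper80.LF (Q mem_Q)
open Pool.Agent.Helper48.DGM (Inp Qmon Qmon_eval Qmon_deg der_dom LeafP leafP_leaf0 LeafG LeafG0 PhG inp_msys)
open Pool.Agent.Helper48.NS (Ov evq Tm e_card fadd_info_le)

noncomputable section

theorem big (S : Sp) {c : ℝ} (hc : 0 < c) (Z : ℝ) : ∀ᶠ k in UF, Z ≤ 2 ^ (c * (S.F k).n) := by
  filter_upwards [(S.Sub_const (abs_nonneg Z)).eventually_le hc] with k hk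
  have := le_abs_self Z
  linarith

theorem typ_small {S : Sp} (x : ∀ k, FLab (S.F k)) (E : ∀ k, (x k).T.Ω → Prop) (e : ℝ) (he : 0 < e)
    (h : Tendsto (fun k => (x k).T.pb (fun ω => ¬ E k ω)) UF (𝓝 0)) :
    ∀ᶠ k in UF, (x k).T.pb (fun ω => ¬ E k ω) ≤ e := by
  filter_upwards [h.eventually (gt_mem_nhds he)] with k hk using hk.le

theorem core_cls {d D D' g r : ℕ} (hvol : VolP d) (hD : 1 ≤ D) (h : D ≤ D')
    (hst : STm D d (lin g) (Fin r)) (hst' : STm D' d (lin g) (Fin r)) (hpr : 1 ≤ lin g D)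
    (hcard : Fintype.card (Mon d (d * lin g D)) < Fintype.card (Mon (d + 1) D))
    {S : Sp} {s : MSys S (d + 1) (lin g) (Fin r)} {t : Two s D D'} (ht : t.Ok h) {K L : ℕ} {C : ℝ} (hC : 1 ≤ C)
    (hS : ∀ A : Matrix (Mon (d + 1) D') (Mon (d + 1) D') ℝ, PdM A → (∀ v, v ⬝ᵥ v ≤ qf A v) → ∀ r : ℝ, 0 < r → r ≤ 1 →
      ∀ κ : ℝ, 1 ≤ κ → ∀ (N : ℕ) (θ τ : ℝ), 0 < θ → θ ≤ 1 → 0 < τ → τ ≤ 1 → C * κ ^ 4 / τ ^ 2 ≤ N →
        ∃ s : SlD d, SlOk D K C L A r κ N θ τ s)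
    {Δ e₁ E₀ e' e'' τ₀ η ε b₁ va vb : ℝ} {a b : Fin (d + 1) → ℝ} (hcls : Cls t ε a b va vb)
    (hvv : va + Δ / 2 ≤ vb + ε) (hΔ : 0 < Δ) (hΔ1 : Δ ≤ 1) (he₁ : 0 < e₁) (he₁' : e₁ ≤ 1 / 2) (hE₀ : E₀ = Δ / 4)
    (he : ((d * lin g D + 1 : ℕ) : ℝ) * (lin g D + 2) * (2 * e₁) < 1)
    (he' : 0 < e') (hinfo : ((d : ℝ) + 1) * e' ≤ 2 * e₁ * E₀) (hK : (D + 3 : ℝ) ≤ ((K : ℝ) + 1) * (5 / 16 * e'))
    (hτ : 0 < τ₀) (hτ1 : τ₀ ≤ e' / 4) (hη : 0 < η) (hη1 : η ≤ e' / 16) (hηL : L * η ≤ 1) (hη2 : η ≤ 1)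
    (he'' : 0 < e'') (hsum : L * (η + τ₀ + e'') + 2 * η ≤ e₁ * E₀)
    (hb0 : 0 < b₁) (hb1 : b₁ ≤ e' / 2) (hb2 : b₁ ≤ e'') (hηb : ((d : ℝ) + 1) * η ≤ b₁ / 2)
    (hε : 0 < ε) (hε1 : ε ≤ Δ / 32) (hε2 : ε ≤ b₁ / 8) (hε3 : ε ≤ τ₀ / 8) : False := by
  classical
  have hD' : 1 ≤ D' := hD.trans h
  have hn0 : ∀ k, 0 < (S.F k).n := fun k => (S.F k).pos
  obtain ⟨ja, hja⟩ := Finite.exists_max a
  obtain ⟨jb, hjb⟩ := Finite.exists_max b
  -- forms are positive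
  have hcapA : ∀ᶠ k in UF, ∀ ω, (t.l k).T.μ ω ≠ 0 → Cpd ((gaq s.Q D).cp k) (t.A k ω) := by
    filter_upwards [ht.canA.1.1 1 one_pos] with k hk ω hω using (hk.2.1 ω hω).1
  have hcapB : ∀ᶠ k in UF, ∀ ω, (t.l k).T.μ ω ≠ 0 → Cpd ((gaq s.Q D').cp k) (t.B k ω) := by
    filter_upwards [ht.optB.1 1 one_pos] with k hk ω hω using (hk.2.1 ω hω).1
  have hbnn : -ε ≤ b jb := by
    obtain ⟨k, hk1, hk2⟩ := (hcapB.and hcls.eb).exists
    obtain ⟨ω, hω⟩ := exists_pt (t.l k).T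
    have h1 := ej_nonneg s.Q k ((t.l k).p.π ω) (hk1 ω hω).psd.2 jb
    have h2 := (hk2 ω hω jb).2
    linarith
  -- the level
  set lam : ℝ := min (b jb + 2 * ε) 1 with hlam
  have hlam1 : lam ≤ 1 := min_le_right _ _
  have hlamb : lam ≤ b jb + 2 * ε := min_le_left _ _
  have hlam0 : 0 < lam := lt_min (by linarith) one_pos
  have hll : b jb + ε < lam ∨ lam = 1 := by
    rcases le_total (b jb + 2 * ε) 1 with h1 | h1
    · left
      rw [hlam, min_eq_left h1]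
      linarith
    · right
      rw [hlam, min_eq_right h1]
  have hst1 := steeper hvol hD hD' hst ht hcls hvv (b jb) hjb lam hlam0 hlam1 hll ja
  -- the parameters
  set σ : ℝ := a ja + ε with hσ
  set δ₁ : ℝ := e₁ * E₀ / 2 with hδ₁
  have hE₀0 : 0 < E₀ := by rw [hE₀]; linarith
  have heE : 0 < e₁ * E₀ := mul_pos he₁ hE₀0
  have hδ₁0 : 0 < δ₁ := by rw [hδ₁]; linarith
  set r₀ : ℕ → ℝ := fun k => S.dl lam k with hr₀
  set κ : ℕ → ℝ := fun k => 2 ^ (η * (S.F k).n) with hκ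
  set N : ℕ → ℕ := fun k => ⌈(2 : ℝ) ^ (e' * (S.F k).n)⌉₊ with hN
  set θ : ℕ → ℝ := fun k => 2 ^ (-e'' * (S.F k).n) with hθ
  set τ : ℕ → ℝ := fun k => 2 ^ (-τ₀ * (S.F k).n) with hτd
  set sl : ∀ _ : ℕ, Matrix (Mon (d + 1) D') (Mon (d + 1) D') ℝ → SlD d := fun k A =>
    sel D K C L (r₀ k) (κ k) (N k) (θ k) (τ k) A with hsl
  have hNge : ∀ k, (2 : ℝ) ^ (e' * (S.F k).n) ≤ N k := fun k => Nat.le_ceil _
  have hr0 : ∀ k, 0 < r₀ k := fun k => S.dl_pos lam k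
  have hr1 : ∀ k, r₀ k ≤ 1 := fun k => by
    have := S.dl_anti hlam0.le k
    rwa [S.dl_zero] at this
  have hok : ∀ᶠ k in UF, ∀ ω, (t.l k).T.μ ω ≠ 0 →
      SlOk D K C L (t.B k ω) (r₀ k) (κ k) (N k) (θ k) (τ k) (sl k (t.B k ω)) := by
    filter_upwards [hcapB, big S (show 0 < e' - 4 * η - 2 * τ₀ by linarith) C] with k h1 h2 ω hω
    apply sel_ok
    exact hS (t.B k ω) (h1 ω hω).pdM (h1 ω hω).2.1 (r₀ k) (hr0 k) (hr1 k) (κ k) (one_le_pw (hn0 k).le hη.le) (N k)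
      (θ k) (τ k) (pw_pos _) (pw_le_one (hn0 k).le (by linarith)) (pw_pos _) (pw_le_one (hn0 k).le (by linarith))
      (num_grid (hNge k) h2)
  -- the point does not meet the bad set
  have T1 := not_small hvol hD' hst' ht hcls lam hlam0 hlam1 jb (fun k A => (sl k A).B)
    (fun k A => sel_meas _ _ _ _ _ _ _ _ _ _) (((d : ℝ) + 1) * η - b₁) (2 * C) (by linarith) (by
      filter_upwards [hok] with k hk ω hω
      refine (hk ω hω).mass.trans (ENNReal.ofReal_le_ofReal ?_)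
      exact num_mass (hn0 k).le hC (hNge k) hb1 hb2) (by linarith)
  -- the size of the second form
  have T2 := phi_typ ht.optB (b jb + ε) lam (by
      filter_upwards [hcls.eb] with k hk ω hω j
      have h1 := (hk ω hω j).2
      have h2 := hjb j
      show ej s.Q k ((t.l k).p.π ω) (t.B k ω) j ≤ b jb + ε
      linarith) hll η hη
  have T3 := ht.dom η hη
  have hsgA : ∀ δ : ℝ, 0 < δ → Tendsto (fun k => (t.x k).l.T.pb (fun ω =>
      ¬ gam (S.dl 1 k) ((t.x k).g ω) (s.Q.v k ((t.x k).l.p.π ω)) ≤ 2 ^ (2 * (σ + δ) * (S.F k).n))) UF (𝓝 0) :=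
    gam_typ ht.canA.1.1 σ (by
      filter_upwards [hcls.ea] with k hk ω hω j
      have h1 := (hk ω hω j).2
      have h2 := hja j
      show ej s.Q k ((t.l k).p.π ω) (t.A k ω) j ≤ a ja + ε
      linarith)
  have T4 := der_dom ht.canA.1 σ hsgA δ₁ hδ₁0
  have T5 := phi_typ ht.canA.1 σ 1 (by
      filter_upwards [hcls.ea] with k hk ω hω j
      have h1 := (hk ω hω j).2
      have h2 := hja j
      show ej s.Q k ((t.l k).p.π ω) (t.A k ω) j ≤ a ja + ε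
      linarith) (Or.inr rfl) δ₁ hδ₁0
  -- good points
  set Gd : ∀ k, (t.l k).T.Ω → Prop := fun k ω => ∃ (i : ℕ) (X : Fin d → ℝ), i < (sl k (t.B k ω)).n₀ ∧
    (∀ a, 0 ≤ X a ∧ X a ≤ 1) ∧
      ∀ a, |s.Q.v k ((t.l k).p.π ω) a - MvPolynomial.eval X ((sl k (t.B k ω)).fi i a)| ≤ 3 * r₀ k with hGd
  set cd : ∀ k, (t.l k).T.Ω → ℕ := fun k ω => if h : Gd k ω then h.choose else 0 with hcd
  set Xc : ∀ k, (t.l k).T.Ω → Fin d → ℝ := fun k ω => if h : Gd k ω then h.choose_spec.choose else fun _ => 0 with hXc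
  have hgd : ∀ k ω, Gd k ω → cd k ω < (sl k (t.B k ω)).n₀ ∧ (∀ a, 0 ≤ Xc k ω a ∧ Xc k ω a ≤ 1) ∧
      ∀ a, |s.Q.v k ((t.l k).p.π ω) a - MvPolynomial.eval (Xc k ω) ((sl k (t.B k ω)).fi (cd k ω) a)| ≤ 3 * r₀ k := by
    intro k ω hg
    have e1 : cd k ω = hg.choose := by
      rw [hcd]
      beta_reduce
      rw [dif_pos hg]
    have e2 : Xc k ω = hg.choose_spec.choose := by
      rw [hXc]
      beta_reduce
      rw [dif_pos hg]
    rw [e1, e2]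
    exact hg.choose_spec.choose_spec
  have hcdle : ∀ᶠ k in UF, ∀ ω, (t.l k).T.μ ω ≠ 0 → (cd k ω : ℝ) ≤ C * (N k : ℝ) ^ (d + 1) := by
    filter_upwards [hok] with k hk ω hω
    by_cases hg : Gd k ω
    · have h1 := (hgd k ω hg).1
      have h2 : (cd k ω : ℝ) ≤ (sl k (t.B k ω)).n₀ := by exact_mod_cast h1.le
      exact h2.trans (hk ω hω).cnt
    · have e1 : cd k ω = 0 := by
        rw [hcd]
        beta_reduce
        rw [dif_neg hg]
      rw [e1, Nat.cast_zero]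
      positivity
  -- the label
  set l : ∀ k, FLab ((Ov t.x).F k) := fun k => fadd (FLab.triv ((Ov t.x).F k)) (Setoid.ker (cd k)) with hl
  set Φ : ∀ k, (l k).T.Ω → Fin (d + 1) → MvPolynomial (Fin d) ℝ := fun k ω => (sl k (t.B k ω)).fi (cd k ω) with hΦ
  set X : ∀ k, (l k).T.Ω → Fin d → ℝ := fun k ω => Xc k ω with hX
  have hinf : ∀ᶠ k in UF, (l k).info / (S.F k).n ≤
      (Real.logb 2 (C + 1) + ((d : ℝ) + 1)) / (S.F k).n + ((d : ℝ) + 1) * e' := by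
    filter_upwards [hcdle] with k hk
    have hn := hn0 k
    have h1 := fadd_info_le (FLab.triv ((Ov t.x).F k)) (Setoid.ker (cd k))
    rw [FLab.triv_info, zero_add] at h1
    have h2 := e_card (F := (FLab.triv ((Ov t.x).F k)).T) (cd k) ((FLab.triv ((Ov t.x).F k)).V ⊓
      (FLab.triv ((Ov t.x).F k)).T.Z) (Finset.range (⌊C * (N k : ℝ) ^ (d + 1)⌋₊ + 1))
      ((C + 1) * (2 * 2 ^ (e' * (S.F k).n)) ^ (d + 1)) (by
        rw [Finset.card_range]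
        push_cast
        have h3 : (⌊C * (N k : ℝ) ^ (d + 1)⌋₊ : ℝ) ≤ C * (N k : ℝ) ^ (d + 1) := Nat.floor_le (by positivity)
        have h4 : (N k : ℝ) ≤ 2 * 2 ^ (e' * (S.F k).n) := by
          have h5 := Nat.ceil_lt_add_one (show (0 : ℝ) ≤ 2 ^ (e' * (S.F k).n) by positivity)
          have h6 : (1 : ℝ) ≤ 2 ^ (e' * (S.F k).n) := one_le_pw hn.le he'.le
          linarith
        have h5 : (N k : ℝ) ^ (d + 1) ≤ (2 * 2 ^ (e' * (S.F k).n)) ^ (d + 1) :=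
          pow_le_pow_left₀ (Nat.cast_nonneg _) h4 _
        have h6 : (1 : ℝ) ≤ (2 * 2 ^ (e' * (S.F k).n)) ^ (d + 1) := by
          apply one_le_pow₀
          have h6 : (1 : ℝ) ≤ 2 ^ (e' * (S.F k).n) := one_le_pw hn.le he'.le
          linarith
        nlinarith only [hC, h3, h5, h6]) (by
        intro ω hω
        rw [Finset.mem_range, Nat.lt_succ_iff]
        exact Nat.le_floor (hk ω hω))
    have h3 : Real.logb 2 ((C + 1) * (2 * 2 ^ (e' * (S.F k).n)) ^ (d + 1)) =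
        Real.logb 2 (C + 1) + ((d : ℝ) + 1) * (1 + e' * (S.F k).n) := by
      rw [Real.logb_mul (by positivity) (by positivity), Real.logb_pow, Real.logb_mul (by norm_num) (by positivity),
        Real.logb_self_eq_one (by norm_num), Real.logb_rpow (by norm_num) (by norm_num)]
      push_cast
      ring
    rw [h3] at h2
    rw [div_le_iff₀ hn, add_mul, div_mul_cancel₀ _ hn.ne']
    have h4 : (l k).info ≤ Real.logb 2 (C + 1) + ((d : ℝ) + 1) * (1 + e' * (S.F k).n) := h1.trans h2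
    linarith
  have hlim : Tendsto (fun k => (Real.logb 2 (C + 1) + ((d : ℝ) + 1)) / (S.F k).n + ((d : ℝ) + 1) * e') UF
      (𝓝 (((d : ℝ) + 1) * e')) := by
    have h1 := (S.div_n_tendsto (Real.logb 2 (C + 1) + ((d : ℝ) + 1))).add_const (((d : ℝ) + 1) * e')
    rwa [zero_add] at h1
  have hUBi : UB (fun k => (l k).info / (S.F k).n) := by
    refine UB.sandwich (UB_const 0) (UB_of_tendsto hlim) ?_ hinf
    exact Eventually.of_forall fun k => div_nonneg (FLab.info_nonneg _) (hn0 k).le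
  have hulE : ul (fun k => (l k).info / (S.F k).n) ≤ 2 * e₁ * E₀ := by
    refine (ul_mono hUBi (UB_of_tendsto hlim) hinf).trans ?_
    rw [ul_eq hlim]
    exact hinfo
  -- degree
  have hinp := inp_msys s hpr le_rfl one_pos ht.canA
  refine Pool.Agent.Helper48.DGM.degree (d := d) s.Q hpr hcard hinp E₀ (2 * e₁) hE₀0 ?_ (by linarith) he l hUBi hulE
    (D * ((d + 1) * K)) X (fun k ω => Qmon (Φ k ω)) (fun k ω c => Qmon_deg _ _ (fun i => ?_) c) ?_ ?_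
  · have h1 : (1 : ℝ) ≤ lin g D := by exact_mod_cast hpr
    rw [sub_zero, mul_one, hE₀]
    linarith
  · exact sel_fi_deg _ _ _ _ _ _ _ _ _ _ _ _
  · intro k ω ω' h1 h2 h3 h4
    have e1 : cd k ω = cd k ω' := h3.2
    have e2 : t.B k ω = t.B k ω' := t.mB k ω ω' h1 h2 h4.1 h4.2
    show Qmon (Φ k ω) = Qmon (Φ k ω')
    rw [hΦ]
    beta_reduce
    rw [e1, e2]
  -- typical points are good
  obtain ⟨Kq, hKq, hQb⟩ := s.Q.bd
  have he8 : 0 < 2 * e₁ / 5 := by positivity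
  have hgap : 0 < lam - (σ + (1 - e₁) * E₀) := by
    rw [hσ, hE₀]
    nlinarith only [hε, hε1, hst1, he8]
  have hlog1 : ∀ᶠ k in UF, (3 : ℝ) ≤ 2 ^ ((lam - (σ + (1 - e₁) * E₀)) * (S.F k).n) := big S hgap 3
  have hbsb : 0 < b jb := by
    have h1 : 0 ≤ a ja + ε := by
      obtain ⟨k, hk1, hk2⟩ := (hcapA.and hcls.ea).exists
      obtain ⟨ω, hω⟩ := exists_pt (t.l k).T
      have h1 := ej_nonneg s.Q k ((t.l k).p.π ω) (hk1 ω hω).psd.2 ja
      have h2 := (hk2 ω hω ja).2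
      linarith
    linarith
  have n1 : ∀ᶠ k in UF, (2 : ℝ) ≤ 2 ^ (2 * b jb * (S.F k).n) := big S (by linarith) 2
  have n2 : ∀ᶠ k in UF, 2 * (cQ (d + 1) D' * 2 ^ (2 * D')) ≤ (2 : ℝ) ^ ((τ₀ - 4 * ε) * (S.F k).n) :=
    big S (by linarith) _
  have n3 : ∀ᶠ k in UF, C ^ (K + 2) ≤ (2 : ℝ) ^ (1 * (S.F k).n) := big S one_pos _
  have n4 : ∀ᶠ k in UF, 4 * (Fintype.card (Mon (d + 1) D) : ℝ) * C ^ 4 ≤ 2 ^ (2 * (e₁ * E₀) * (S.F k).n) :=
    big S (by linarith) _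
  have n5 : ∀ᶠ k in UF, ((d + 1 : ℕ) : ℝ) ≤ 2 ^ (((1 - e₁) * E₀ - δ₁) * (S.F k).n) := by
    apply big S
    rw [hδ₁]
    nlinarith only [hΔ, he₁', hE₀]
  have n6 : ∀ᶠ k in UF, 16 * ((d + 1 : ℕ) : ℝ) ^ 2 ≤ 2 ^ ((2 * e₁ * E₀ - 3 * δ₁) * (S.F k).n) := by
    apply big S
    rw [hδ₁]
    nlinarith only [heE]
  filter_upwards [hok, hcapA, hcapB, hcls.eb, hQb, hKq.eventually_le hη, hlog1, n1, n2, n3, n4, n5, n6,
    typ_small t.l _ _ he8 (by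
      refine T1.congr fun k => ?_
      congr 1
      funext ω
      exact propext not_not.symm),
    typ_small t.l _ _ he8 T2, typ_small t.l _ _ he8 T3, typ_small t.l _ _ he8 T4, typ_small t.l _ _ he8 T5] with
    k c1 c2 c3 c4 c5 c6 c7 c8 c9 c10 c11 c12 c13 p1 p2 p3 p4 p5
  have hn := hn0 k
  have hsumle : (t.l k).T.pb (fun ω => (¬ ¬ (Q (S.dl lam k) (fun i => ⌊s.Q.v k ((t.l k).p.π ω) i / S.dl lam k⌋) ⊆
      (sl k (t.B k ω)).B)) ∨ (¬ phi (S.dl lam k) (t.B k ω) (s.Q.v k ((t.l k).p.π ω)) ≤ 2 ^ (η * (S.F k).n)) ∨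
      (¬ ∀ v : Mon (d + 1) D' → ℝ, qf (t.A k ω) (fun a => v (em h a)) ≤ 2 ^ (η * (S.F k).n) * qf (t.B k ω) v) ∨
      (¬ ∀ (i : Fin (d + 1)) (v : Mon (d + 1) D → ℝ),
        qf (t.A k ω) (Tm i *ᵥ v) ≤ (2 ^ ((σ + δ₁) * (S.F k).n)) ^ 2 * qf (t.A k ω) v) ∨
      (¬ phi (S.dl 1 k) (t.A k ω) (s.Q.v k ((t.l k).p.π ω)) ≤ 2 ^ (δ₁ * (S.F k).n))) ≤ 2 * e₁ := by
    refine (pb_or _ _ _).trans ?_
    refine (add_le_add p1 ((pb_or _ _ _).trans (add_le_add p2 ((pb_or _ _ _).trans (add_le_add p3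
      ((pb_or _ _ _).trans (add_le_add p4 p5))))))).trans (le_of_eq ?_)
    ring
  refine le_trans ((t.l k).T.pb_mono (fun ω hω hbad => ?_)) hsumle
  by_contra hcon
  simp only [not_or, not_not] at hcon
  obtain ⟨g1, g2, g3, g4, g5⟩ := hcon
  apply hbad
  have hA := c2 ω hω
  have hB := c3 ω hω
  have hOk := c1 ω hω
  have hρ := num_rho (C := C) (η := η) (e' := e') (τ₀ := τ₀) (u := (D : ℝ) + 3) (N := N k) (K := K) hn.le hC (hNge k) (by
    refine hK.trans (mul_le_mul_of_nonneg_left ?_ (by positivity))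
    linarith)
  set ρK : ℝ := (C * 2 ^ (η * (S.F k).n) / Real.sqrt ((N k : ℝ) * 2 ^ (-τ₀ * (S.F k).n))) ^ (K + 1) with hρK
  have hρ0 : 0 ≤ ρK := by positivity
  have hCK : C ^ (K + 1) ≤ 2 ^ (1 * (S.F k).n) := by
    refine le_trans ?_ c10
    exact pow_le_pow_right₀ hC (Nat.le_succ _)
  have hclose : C * κ k * (C * κ k / Real.sqrt ((N k : ℝ) * τ k)) ^ (K + 1) ≤ r₀ k := by
    show C * 2 ^ (η * (S.F k).n) * ρK ≤ r₀ k
    calc C * 2 ^ (η * (S.F k).n) * ρK ≤ C * 2 ^ (η * (S.F k).n) * (C ^ (K + 1) * 2 ^ (-((D : ℝ) + 3) * (S.F k).n)) :=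
          mul_le_mul_of_nonneg_left hρ (by positivity)
      _ = C ^ (K + 2) * (2 ^ (η * (S.F k).n) * 2 ^ (-((D : ℝ) + 3) * (S.F k).n)) := by ring
      _ ≤ 2 ^ (1 * (S.F k).n) * (2 ^ (η * (S.F k).n) * 2 ^ (-((D : ℝ) + 3) * (S.F k).n)) :=
          mul_le_mul_of_nonneg_right c10 (by positivity)
      _ = 2 ^ ((1 + (η + -((D : ℝ) + 3))) * (S.F k).n) := by rw [pw_mul, pw_mul]
      _ ≤ 2 ^ (-1 * (S.F k).n) := by
          apply pw_mono hn.le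
          have : (0 : ℝ) ≤ D := Nat.cast_nonneg D
          linarith
      _ ≤ r₀ k := by
          rw [hr₀]
          beta_reduce
          unfold Sp.dl
          apply Real.rpow_le_rpow_of_exponent_le (by norm_num)
          nlinarith only [hlam1, hn]
  have hsteep : ∀ x : Fin (d + 1) → ℝ, (∀ a, |x a - s.Q.v k ((t.l k).p.π ω) a| ≤ r₀ k) →
      τ k ≤ r₀ k ^ 2 * Jq (r₀ k) (t.B k ω) x jb jb := by
    intro x hx
    refine steep_cell hB.pdM hlam1 k _ x hx jb (bs := b jb) (Jq_low s.Q k _ hB.psd.2 (c4 ω hω jb).1) c8 ?_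
    calc 2 * (cQ (d + 1) D' * 2 ^ (2 * D')) * τ k ≤ 2 ^ ((τ₀ - 4 * ε) * (S.F k).n) * 2 ^ (-τ₀ * (S.F k).n) :=
          mul_le_mul_of_nonneg_right c9 (by positivity)
      _ = 2 ^ (((τ₀ - 4 * ε) + -τ₀) * (S.F k).n) := pw_mul _ _ _
      _ ≤ _ := pw_mono hn.le (by linarith)
  have hG : Gd k ω := by
    refine pt_leaf hOk (hr0 k) (s.Q.v k ((t.l k).p.π ω)) g2 (fun a => ?_) g1 jb hsteep hclose
    have h1 := c5 ((t.l k).p.π ω) ((t.l k).p.supp ω hω) a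
    have h2 : Kq k + 2 ≤ κ k := c6
    linarith
  obtain ⟨q1, q2, q3⟩ := hgd k ω hG
  have hLP : LeafP s.Q t.x k (l k) σ E₀ e₁ (X k) (Φ k) ω := by
    refine ⟨q2, fun i => (q3 i).trans ?_⟩
    calc 3 * r₀ k ≤ 2 ^ ((lam - (σ + (1 - e₁) * E₀)) * (S.F k).n) * r₀ k :=
          mul_le_mul_of_nonneg_right c7 (hr0 k).le
      _ = _ := by
          rw [hr₀]
          beta_reduce
          unfold Sp.dl
          rw [← Real.rpow_add (by norm_num)]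
          congr 1
          ring
  have hLG := leafP_leaf0 (D := D) (d := d) (P := s.Q) t.x k (l k) σ E₀ e₁ δ₁ (by linarith) (X k) (Φ k) ω hA.pdM hA.1 hLP
    g5 g4 c12 c13
  refine ⟨hLG.1, fun y hy => ?_, hLG.2⟩
  -- the form on the leaf
  have hfi : Φ k ω = (sl k (t.B k ω)).Φ ⟨cd k ω, q1⟩ := (sl k (t.B k ω)).fi_eq ⟨cd k ω, q1⟩
  have e1 : evq (Qmon (D := D) (Φ k ω)) y = vv (fun i => MvPolynomial.eval y (Φ k ω i)) := Qmon_eval _ _
  show qf (t.A k ω) (evq (Qmon (D := D) (Φ k ω)) y) ≤ (2 ^ (2 * e₁ * E₀ * (S.F k).n)) ^ 2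
  rw [e1, hfi]
  have hcap2 : ∀ v, qf (t.A k ω) v ≤ (2 ^ (((D : ℝ) + 1) * (S.F k).n)) ^ 2 * (v ⬝ᵥ v) := by
    intro v
    refine (hA.2.2 v).trans (mul_le_mul_of_nonneg_right ?_ (dot_self_nonneg v))
    rw [pw_pow]
    show (2 : ℝ) ^ (((gaq s.Q D).C + 1) * (S.F k).n) ≤ _
    apply pw_mono hn.le
    show (2 * (D : ℝ) + 1) + 1 ≤ _
    push_cast
    linarith
  have hWH : 2 ^ (η * (S.F k).n) * (C * κ k ^ 2) ≤ (C * 2 ^ (2 * η * (S.F k).n)) ^ 2 := by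
    rw [hκ]
    beta_reduce
    rw [mul_pow, pw_pow, pw_pow]
    calc 2 ^ (η * (S.F k).n) * (C * 2 ^ ((((2 : ℕ) : ℝ) * η) * (S.F k).n)) =
        C * 2 ^ ((η + ((2 : ℕ) : ℝ) * η) * (S.F k).n) := by
          rw [← pw_mul]
          ring
      _ ≤ C ^ 2 * 2 ^ ((((2 : ℕ) : ℝ) * (2 * η)) * (S.F k).n) := by
          apply mul_le_mul (by nlinarith only [hC]) _ (by positivity) (by positivity)
          apply pw_mono hn.le
          push_cast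
          linarith
  have hql := qf_leaf h hOk hA.pdM hB.pdM (C * 2 ^ (2 * η * (S.F k).n)) (2 ^ (((D : ℝ) + 1) * (S.F k).n))
    (2 ^ (η * (S.F k).n)) (by positivity) (by positivity) (by positivity) hcap2 g3 hWH ⟨cd k ω, q1⟩ y hy
  refine hql.trans ?_
  have hfin := num_leaf (C := C) (η := η) (e'' := e'') (τ₀ := τ₀) (n := (S.F k).n) (D := (D : ℝ))
    (c := (Fintype.card (Mon (d + 1) D) : ℝ)) (E := e₁ * E₀) (L := L) (K := K) (ρ := ρK) hn.le hC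
    (Nat.cast_nonneg _) hη.le hρ0 hρ hηL hCK hsum c11
  refine hfin.trans (le_of_eq ?_)
  congr 2
  ring

end

end Pool.Agent.Helper48.DGR
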