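import Pool.Agent.Helper48.DGR.Dgr
import Pool.Agent.Helper3.KL.Dgr
import Pool.Agent.Helper26.MT.Zw
import Pool.Agent.Helper52.GF.Kr

/-! DEGREES OF HULLS OF K-LABELS are bounded, uniformly in the family of types (no hypothesis except the structure theorem
in the smaller dimensions). -/

set_option autoImplicit false

namespace Pool.Agent.Helper48.DGR

open Finset Filter Topology Matrix Pool.Agent.Helper69.RK Pool.Agent.Helper31.EC Pool.Agent.Helper31.EC.Sp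
open Pool.Agent.Helper40.EL Pool.Agent.Helper89.LX Pool.Agent.Helper3.LF Pool.Agent.Helper84.MT
open Pool.Agent.Helper36.AM (STu)
open Pool.Agent.Helper3.KL (kp qv kp_qv dtm_qv dgr_fam dgr_form)
open Pool.Agent.Helper52.GF (scw)

noncomputable section

variable {M : ℕ}

theorem vol_ren {S : Sp} {N : ℕ} {E : ℕ → ℕ} {ι κ : Type} [Finite ι] [Finite κ] (s : MSys S N E ι) {f : κ → ι}
    (hf : Function.Surjective f) (D : ℕ) (c : ℝ) : (s.ren f).vol D c = s.vol D c := by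
  obtain ⟨x, hx⟩ := s.exists_can D c
  have h1 := (s.IsCan_ren_iff hf D c x).2 hx
  rw [← s.vol_eq hx.1, ← (s.ren f).vol_eq h1.1]
  rfl

/-- THE DEGREES, all finite families of types -/
theorem vol_dgr (hst : ∀ m, m < M + 1 → STu m) (g : ℕ) : ∃ D₁ : ℕ, ∀ D, D₁ ≤ D → ∀ (D' : ℕ) (κ : Type) [Finite κ]
    (S : Sp) (s : MSys S (M + 1) (lin g) κ), s.vol D 0 ≤ s.vol D' 0 := by
  obtain ⟨D₁, h1⟩ := dgru M hst g
  refine ⟨D₁, fun D hD D' κ _ S s => ?_⟩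
  have e := Finite.equivFin κ
  have h2 := h1 D hD (Nat.card κ) S (s.ren e.symm)
  have h3 := Pool.Agent.Helper84.MT.volO_le (s.ren e.symm) D' 0
  rw [vol_ren s e.symm.surjective] at h2 h3
  exact h2.trans h3

/-- THE DEGREES OF K-FORMS (window `0`), any literal variable `C` which determines the point, any family of conditions each
of which is finer than a window or known to `C` -/
theorem dgrK (hst : ∀ m, m < M + 1 → STu m) (g : ℕ) : ∃ D₁ : ℕ, ∀ D, D₁ ≤ D → ∀ (D' : ℕ) (ι κ : Type) [Finite ι]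
    [Finite κ] (S : Sp) (s : MSys S (M + 1) (lin g) ι) (α : ℕ → Type) (C : ∀ k, (S.F k).Ω → α k) (_ : Dtm s.Q C)
    (A : κ → Part S) (_ : ∀ j, (∃ i, PLe ((s.lf i).win 0) (A j)) ∨ ∀ᶠ k in UF, kp C k ≤ A j k)
    (x' : ∀ k, FD (S.F k) (Mon (M + 1) D')) (_ : (gaq s.Q D').Fm x') (_ : (LC.kz (kp C)).ev (fun k => (x' k).l))
    (_ : ∀ i, Nul S (fun k => (x' k).l.leak ((s.lf i).win 0 k)))
    (x : ∀ k, FD (S.F k) (Mon (M + 1) D)) (_ : (gaq s.Q D).OptfK (LC.kz (kp C)) A x),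
    vol s.Q D x ≤ vol s.Q D' x' := by
  obtain ⟨D₁, h1⟩ := vol_dgr hst g
  exact ⟨D₁, fun D hD D' ι κ _ _ S s α C hC A hA x' h2 h3 h4 x hx =>
    dgr_fam s (fun κ _ T t => h1 D hD D' κ T t) hC hA h2 h3 h4 hx⟩

/-- THE DEGREES OF K-FORMS (window `0`), a resolution `R` which knows the cells of the point -/
theorem dgrR (hst : ∀ m, m < M + 1 → STu m) (g : ℕ) : ∃ D₁ : ℕ, ∀ D, D₁ ≤ D → ∀ (D' : ℕ) (ι : Type) [Finite ι]
    (S : Sp) (s : MSys S (M + 1) (lin g) ι) (R : ∀ k, Setoid (S.F k).Ω) (_ : ∀ᶠ k in UF, ∀ ω ω', (S.F k).μ ω ≠ 0 →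
      (S.F k).μ ω' ≠ 0 → (S.F k).Z ω ω' → R k ω ω' → s.Q.cellv 1 k ω = s.Q.cellv 1 k ω')
    (x' : ∀ k, FD (S.F k) (Mon (M + 1) D')) (_ : (gaq s.Q D').AdfK (LC.kz fun k => fc (R k))
      (scw s (fun k => fc (R k)) 0) x')
    (x : ∀ k, FD (S.F k) (Mon (M + 1) D)) (_ : (gaq s.Q D).OptfK (LC.kz fun k => fc (R k))
      (scw s (fun k => fc (R k)) 0) x), vol s.Q D x ≤ vol s.Q D' x' := by
  obtain ⟨D₁, h1⟩ := dgrK hst g
  refine ⟨D₁, fun D hD D' ι _ S s R hR x' hx' x hx => ?_⟩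
  have hC := dtm_qv hR
  rw [← kp_qv] at hx hx'
  have h2 := Gau.AdfK.dm _ hx'
  refine h1 D hD D' ι (Option ι) S s _ (qv R) hC _ (fun j => ?_) x' hx'.1.fm hx'.2 (fun i => h2 (some i)) x hx
  rcases j with _ | i
  · exact Or.inr (Eventually.of_forall fun k => le_rfl)
  · exact Or.inl ⟨i, PLe.refl _⟩

end

end Pool.Agent.Helper48.DGR
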