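import Pool.Agent.Helper48.DGR.Core
import Pool.Agent.Helper81.MT.Img

/-! Row DGR: the assembly. -/

set_option autoImplicit false

namespace Pool.Agent.Helper48.DGR

open Finset Filter Topology Matrix MeasureTheory Pool.Agent.Helper69.RK Pool.Agent.Helper31.EC
open Pool.Agent.Helper31.EC.Sp
open Pool.Agent.Helper40.EL Pool.Agent.Helper89.LX Pool.Agent.Helper84.MT Pool.Agent.Helper59.LF
open Pool.Agent.Helper3.LF hiding lin
open Pool.Agent.Helper95.LF (PdM)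
open Pool.Agent.Helper36.AM (volO STu DGR DGRu)

noncomputable section

/-- the second form has the same volume -/
theorem core {d D D' g r : ℕ} (hvol : VolP d) (hsl : ∀ K, SliceP d D' D K) (hD : 1 ≤ D) (h : D ≤ D')
    (hst : STm D d (lin g) (Fin r)) (hst' : STm D' d (lin g) (Fin r)) (hpr : 1 ≤ lin g D)
    (hcard : Fintype.card (Mon d (d * lin g D)) < Fintype.card (Mon (d + 1) D))
    {S : Sp} {s : MSys S (d + 1) (lin g) (Fin r)} {t : Two s D D'} (ht : t.Ok h) :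
    vol s.Q D t.x ≤ vol s.Q D' t.y := by
  by_contra hcon
  push Not at hcon
  set Δ : ℝ := min 1 (vol s.Q D t.x - vol s.Q D' t.y) with hΔd
  have hΔ : 0 < Δ := lt_min one_pos (by linarith)
  have hΔ1 : Δ ≤ 1 := min_le_left _ _
  have hΔ2 : vol s.Q D' t.y + Δ ≤ vol s.Q D t.x := by
    have : Δ ≤ vol s.Q D t.x - vol s.Q D' t.y := min_le_right _ _
    linarith
  have hprr : (1 : ℝ) ≤ lin g D := by exact_mod_cast hpr
  set P : ℝ := ((d * lin g D + 1 : ℕ) : ℝ) * (lin g D + 2) with hP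
  have hP3 : 3 ≤ P := by
    have h1 : (1 : ℝ) ≤ ((d * lin g D + 1 : ℕ) : ℝ) := by
      push_cast
      have : (0 : ℝ) ≤ d * lin g D := by positivity
      linarith
    nlinarith
  set e₁ : ℝ := 1 / (4 * P) with he₁
  have he₁0 : 0 < e₁ := by positivity
  have he₁1 : e₁ ≤ 1 / 2 := by
    rw [he₁]
    apply one_div_le_one_div_of_le <;> linarith
  have heP : P * (2 * e₁) < 1 := by
    rw [he₁]
    have h1 : P * (2 * (1 / (4 * P))) = 1 / 2 := by
      field_simp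
      norm_num
    rw [h1]
    norm_num
  set E₀ : ℝ := Δ / 4 with hE₀
  have hE₀0 : 0 < E₀ := by positivity
  set e' : ℝ := 2 * e₁ * E₀ / ((d : ℝ) + 1) with he'
  have he'0 : 0 < e' := by positivity
  have hinfo : ((d : ℝ) + 1) * e' ≤ 2 * e₁ * E₀ := by
    rw [he', mul_div_cancel₀ _ (by positivity)]
  set K : ℕ := ⌈((D : ℝ) + 3) / (5 / 16 * e')⌉₊ with hK
  have hK1 : (D + 3 : ℝ) ≤ ((K : ℝ) + 1) * (5 / 16 * e') := by
    have h1 : ((D : ℝ) + 3) / (5 / 16 * e') ≤ K := Nat.le_ceil _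
    rw [div_le_iff₀ (by positivity)] at h1
    nlinarith
  obtain ⟨C, L, hC, hS⟩ := exists_sl (hsl K)
  have hL1 : (0 : ℝ) < (L : ℝ) + 1 := by positivity
  set z : ℝ := e₁ * E₀ / ((L : ℝ) + 1) with hz
  have hz0 : 0 < z := by positivity
  have hzL : ((L : ℝ) + 1) * z = e₁ * E₀ := by
    rw [hz, mul_div_cancel₀ _ (by positivity)]
  set τ₀ : ℝ := min (e' / 4) (z / 4) with hτ₀
  set e'' : ℝ := z / 4 with he''
  set b₁ : ℝ := min (e' / 2) e'' with hb₁
  have hτ0 : 0 < τ₀ := lt_min (by positivity) (by positivity)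
  have hb0 : 0 < b₁ := lt_min (by positivity) (by positivity)
  set η : ℝ := min (min (e' / 16) (z / 8)) (min (b₁ / (2 * ((d : ℝ) + 1))) (1 / ((L : ℝ) + 1))) with hη
  have hη0 : 0 < η := lt_min (lt_min (by positivity) (by positivity)) (lt_min (by positivity) (by positivity))
  have hη1 : η ≤ e' / 16 := (min_le_left _ _).trans (min_le_left _ _)
  have hη2 : η ≤ z / 8 := (min_le_left _ _).trans (min_le_right _ _)
  have hη3 : η ≤ b₁ / (2 * ((d : ℝ) + 1)) := (min_le_right _ _).trans (min_le_left _ _)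
  have hη4 : η ≤ 1 / ((L : ℝ) + 1) := (min_le_right _ _).trans (min_le_right _ _)
  have hη5 : η * ((L : ℝ) + 1) ≤ 1 := by rwa [le_div_iff₀ hL1] at hη4
  have hη6 : η * (2 * ((d : ℝ) + 1)) ≤ b₁ := by rwa [le_div_iff₀ (by positivity)] at hη3
  set ε : ℝ := min (Δ / 32) (min (b₁ / 8) (τ₀ / 8)) with hε
  have hε0 : 0 < ε := lt_min (by positivity) (lt_min (by positivity) (by positivity))
  have hL0 : (0 : ℝ) ≤ L := Nat.cast_nonneg L
  obtain ⟨U, hU, a, b, va, vb, hcls, hvv⟩ := exists_cls t ht hΔ hΔ2 hε0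
  refine core_cls hvol hD h hst hst' hpr hcard (ht.re U hU) hC hS hcls hvv hΔ hΔ1 he₁0 he₁1 hE₀ heP he'0 hinfo hK1
    hτ0 (min_le_left _ _) hη0 hη1 (by nlinarith) (by nlinarith) (by positivity) ?_ hb0 (min_le_left _ _) (min_le_right _ _)
    (by linarith) hε0 (min_le_left _ _) ((min_le_right _ _).trans (min_le_left _ _))
    ((min_le_right _ _).trans (min_le_right _ _))
  have h1 : τ₀ ≤ z / 4 := min_le_right _ _
  have h2 : L * (η + τ₀ + e'') ≤ L * (5 / 8 * z) := by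
    apply mul_le_mul_of_nonneg_left _ hL0
    rw [he'']
    linarith
  have h3 : (L : ℝ) * z + z = e₁ * E₀ := by
    rw [← hzL]
    ring
  have h4 : 0 ≤ (L : ℝ) * z := by positivity
  nlinarith

/-- the volumes of a system whose point is over `kappa_0` -/
theorem vol_le_vol {d D D' g r : ℕ} (hvol : VolP d) (hemb : EmbP (d + 1)) (hsl : ∀ K, SliceP d D' D K) (hD : 1 ≤ D)
    (h : D ≤ D') (hst : STm D d (lin g) (Fin r)) (hst' : STm D' d (lin g) (Fin r)) (hpr : 1 ≤ lin g D)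
    (hcard : Fintype.card (Mon d (d * lin g D)) < Fintype.card (Mon (d + 1) D))
    {S : Sp} (s : MSys S (d + 1) (lin g) (Fin r)) : s.vol D 0 ≤ s.vol D' 0 := by
  have hk := s.kap_isKap 0
  have hz := s.mkz_kap le_rfl one_pos hk
  set Z := s.mkz le_rfl one_pos hk.1 with hZ
  have hcon : Z.sys.Con 0 := Z.Con_zero hz
  obtain ⟨t, ht, h1, h2⟩ := exists_two hemb Z.sys hcon h
  have h3 := core hvol hsl hD h hst hst' hpr hcard ht
  rw [h1, h2] at h3
  have e1 := Z.vol_sys hD (le_refl (0 : ℝ))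
  have e2 := Z.vol_sys (hD.trans h) (le_refl (0 : ℝ))
  have e3 : Z.c + Z.e * 0 = 0 := by
    rw [mul_zero, add_zero]
    rfl
  rw [e3] at e1 e2
  rw [e1, e2]
  exact mul_le_mul_of_nonneg_left h3 Z.e_pos.le

/-- larger exponents -/
def msE {S : Sp} {M : ℕ} {E E' : ℕ → ℕ} {ι : Type} (s : MSys S M E ι) (hE : ∀ D, E D ≤ E' D) : MSys S M E' ι where
  Q := s.Q
  lf := fun i => (s.lf i).monoE hE

theorem msE_cnd {S : Sp} {M : ℕ} {E E' : ℕ → ℕ} {ι : Type} (s : MSys S M E ι) (hE : ∀ D, E D ≤ E' D) (c : ℝ) :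
    (msE s hE).cnd c = s.cnd c := by
  funext i
  rcases i with _ | i
  · rfl
  · rfl

theorem msE_vol {S : Sp} {M D : ℕ} {E E' : ℕ → ℕ} {ι : Type} [Finite ι] (s : MSys S M E ι) (hE : ∀ D, E D ≤ E' D)
    (c : ℝ) : (msE s hE).vol D c = s.vol D c := by
  obtain ⟨x, hx⟩ := s.exists_can D c
  have h1 : (gaq (msE s hE).Q D).Optf ((msE s hE).cnd c) x := by
    rw [msE_cnd]
    exact hx.1
  rw [← s.vol_eq hx.1, ← (msE s hE).vol_eq h1]
  rfl

theorem lin_mono {g g' : ℕ} (h : g ≤ g') (D : ℕ) : lin g D ≤ lin g' D := Nat.mul_le_mul_right _ h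

/-- ROW DGR, one complexity -/
theorem dgr_of {d : ℕ} (hvol : VolP d) (hemb : EmbP (d + 1)) (hsl : ∀ D' D K, SliceP d D' D K) (g D₀ : ℕ) :
    ∃ D₁ : ℕ, D₀ ≤ D₁ ∧ ∀ D, D₁ ≤ D → ∀ r : ℕ, (∀ D', D ≤ D' → STm D' d (lin (max g 1)) (Fin r)) →
      ∀ (S : Sp) (s : MSys S (d + 1) (lin g) (Fin r)), s.vol D 0 ≤ volO s 0 := by
  obtain ⟨D₂, hD₂, hc⟩ := Pool.Agent.Helper48.DGM.exists_card (max g 1) d (d + 1) (Nat.lt_succ_self d)
  refine ⟨max D₀ D₂, le_max_left _ _, fun D hD r hst S s => ?_⟩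
  have hD1 : D₂ ≤ D := (le_max_right _ _).trans hD
  have hD11 : 1 ≤ D := hD₂.trans hD1
  have hE : ∀ D, lin g D ≤ lin (max g 1) D := lin_mono (le_max_left _ _)
  have hpr : 1 ≤ lin (max g 1) D := Nat.mul_pos (by omega) (Nat.succ_pos _)
  refine le_ciInf fun D' => ?_
  rcases le_total D D' with h | h
  · rw [← msE_vol s hE, ← msE_vol s hE]
    exact vol_le_vol hvol hemb (hsl D' D) hD11 h (hst D le_rfl) (hst D' h) hpr (hc D hD1) (msE s hE)
  · exact (hemb D' D h S (Fin r) inferInstance _ s).1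

/-- ROW DGR from its pieces, uniform in the number of types -/
theorem dgru_of {d : ℕ} (hvol : VolP d) (hemb : EmbP (d + 1)) (hsl : ∀ D' D K, SliceP d D' D K) : DGRu (d + 1) := by
  intro hst g
  obtain ⟨D₀, hD₀⟩ := hst d (Nat.lt_succ_self d) (max g 1)
  obtain ⟨D₁, h1, h2⟩ := dgr_of hvol hemb hsl g D₀
  exact ⟨D₁, fun D hD r S s => h2 D hD r (fun D' hD' => hD₀ D' (h1.trans (hD.trans hD')) r) S s⟩

/-- ROW DGR from its pieces -/
theorem dgr_of' {d : ℕ} (hvol : VolP d) (hemb : EmbP (d + 1)) (hsl : ∀ D' D K, SliceP d D' D K) : DGR (d + 1) := by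
  intro hst g r
  obtain ⟨D₀, hD₀⟩ := hst d (Nat.lt_succ_self d) (max g 1) r
  obtain ⟨D₁, h1, h2⟩ := dgr_of hvol hemb hsl g D₀
  exact ⟨D₁, fun D hD S s => h2 D hD r (fun D' hD' => hD₀ D' (h1.trans (hD.trans hD'))) S s⟩

end

end Pool.Agent.Helper48.DGR
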