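import Pool.Agent.Helper48.DGR.Bnd

/-! Row DGR: the inequalities between the exponents of two forms on a class. -/

set_option autoImplicit false

namespace Pool.Agent.Helper48.DGR

open Finset Filter Topology Matrix MeasureTheory Pool.Agent.Helper69.RK Pool.Agent.Helper31.EC
open Pool.Agent.Helper31.EC.Sp
open Pool.Agent.Helper40.EL Pool.Agent.Helper89.LX Pool.Agent.Helper3.LF Pool.Agent.Helper84.MT Pool.Agent.Helper59.LF
open Pool.Agent.Helper95.LF (PdM)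
open Pool.Agent.Helper14.MC (gx vx vol_eq vx_UB)
open Pool.Agent.Helper80.LF (Q mem_Q)

noncomputable section

variable {S : Sp} {M d D D' g r : ℕ} {ι κ : Type}

theorem vol_ge {P : S.VV M} {A : κ → Part S} {x : ∀ k, FD (S.F k) (Mon M D)} (hx : (gaq P D).Adf A x) (w : ℝ)
    (h : ∀ᶠ k in UF, ∀ ω, (x k).l.T.μ ω ≠ 0 → gx P k ((x k).l.p.π ω) ((x k).g ω) ≤ w) : M - w ≤ vol P D x := by
  have h2 : ul (vx P x) ≤ w := by
    apply ul_le_const (vx_UB hx)
    filter_upwards [h] with k hk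
    exact sum_mul_le _ _ fun ω hω => hk ω hω
  rw [vol_eq]
  linarith

/-- lower bound of the entropy of the digits -/
theorem ineq_low (hvol : VolP d) (hD : 1 ≤ D) (hst : STm D d (lin g) (Fin r)) {s : MSys S (d + 1) (lin g) (Fin r)}
    (hc : s.Con 0) {x : ∀ k, FD (S.F k) (Mon (d + 1) D)} (hx : (gaq s.Q D).Optf (s.cnd 0) x) (w a : ℝ) (j : Fin (d + 1))
    (hw : ∀ᶠ k in UF, ∀ ω, (x k).l.T.μ ω ≠ 0 → gx s.Q k ((x k).l.p.π ω) ((x k).g ω) ≤ w)
    (ha : ∀ᶠ k in UF, ∀ ω, (x k).l.T.μ ω ≠ 0 → a ≤ ej s.Q k ((x k).l.p.π ω) ((x k).g ω) j)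
    (lam : ℝ) (h0 : 0 < lam) (h1 : lam ≤ 1) : lam * d + a - w ≤ H (s.Q.dg lam) := by
  have h2 := vol_ge hx.1 w hw
  have h3 := hvol g r D hD hst S s hc x hx j lam h0 h1
  have hU : UB (fun k => ∑ ω, (x k).l.T.μ ω * ej s.Q k ((x k).l.p.π ω) ((x k).g ω) j) := by
    obtain ⟨C, hC, hb⟩ := gx_bd hx.1
    apply UB_of_nonneg_le (C := C)
    · filter_upwards [hx.1 1 one_pos] with k hk
      apply Finset.sum_nonneg
      intro ω _
      by_cases h0 : (x k).l.T.μ ω = 0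
      · rw [h0, zero_mul]
      · exact mul_nonneg ((x k).l.T.nn ω) (ej_nonneg s.Q k _ (hk.2.1 ω h0).1.psd.2 j)
    · filter_upwards [hx.1 1 one_pos, hb] with k hk hb
      exact sum_mul_le _ _ fun ω hω =>
        (ej_le_gx s.Q k _ (hk.2.1 ω hω).1.1 (hk.2.1 ω hω).1.psd.2 j).trans (hb ω hω).2
  have h4 : a ≤ ul (fun k => ∑ ω, (x k).l.T.μ ω * ej s.Q k ((x k).l.p.π ω) ((x k).g ω) j) := by
    apply const_le_ul hU
    filter_upwards [ha] with k hk
    exact mul_sum_ge _ fun ω hω => hk ω hω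
  have h5 : (fun k => ∑ ω, (x k).l.T.μ ω *
      (Real.logb 2 (1 + Jq (S.dl 1 k) ((x k).g ω) (s.Q.v k ((x k).l.p.π ω)) j j) / (2 * (S.F k).n))) =
      fun k => ∑ ω, (x k).l.T.μ ω * ej s.Q k ((x k).l.p.π ω) ((x k).g ω) j := rfl
  rw [h5] at h3
  push_cast at h2
  linarith

/-- THE SECOND FORM IS STEEPER -/
theorem steeper (hvol : VolP d) (hD : 1 ≤ D) (hD' : 1 ≤ D') (hst : STm D d (lin g) (Fin r))
    {s : MSys S (d + 1) (lin g) (Fin r)} {t : Two s D D'} {h : D ≤ D'} (ht : t.Ok h) {ε Δ va vb : ℝ}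
    {a b : Fin (d + 1) → ℝ} (hc : Cls t ε a b va vb) (hv : va + Δ / 2 ≤ vb + ε) (bs : ℝ) (hb : ∀ j, b j ≤ bs)
    (lam : ℝ) (h0 : 0 < lam) (h1 : lam ≤ 1) (hl : bs + ε < lam ∨ lam = 1) (j : Fin (d + 1)) :
    a j + Δ / 2 - 2 * ε ≤ lam := by
  have e1 := ineq_low hvol hD hst ht.con ht.canA.1 (va + ε) (a j) j (by
      filter_upwards [hc.ga] with k hk ω hω using (hk ω hω).2) (by
      filter_upwards [hc.ea] with k hk ω hω using (hk ω hω j).1) lam h0 h1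
  have e2 := cnt_two ht.con hD' ht.optB (bs + ε) lam vb h0.le h1 (by
      filter_upwards [hc.eb] with k hk ω hω i
      have := (hk ω hω i).2
      have := hb i
      show ej s.Q k ((t.l k).p.π ω) (t.B k ω) i ≤ bs + ε
      linarith) hl (by
      filter_upwards [hc.gb] with k hk ω hω using (hk ω hω).1)
  push_cast at e2
  linarith

/-- THE POINT DOES NOT MEET SETS OF SMALL MASS -/
theorem not_small (hvol : VolP d) (hD' : 1 ≤ D') (hst' : STm D' d (lin g) (Fin r))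
    {s : MSys S (d + 1) (lin g) (Fin r)} {t : Two s D D'} {h : D ≤ D'} (ht : t.Ok h) {ε va vb : ℝ}
    {a b : Fin (d + 1) → ℝ} (hc : Cls t ε a b va vb) (lam : ℝ) (h0 : 0 < lam) (h1 : lam ≤ 1) (j : Fin (d + 1))
    (Us : ∀ _ : ℕ, Matrix (Mon (d + 1) D') (Mon (d + 1) D') ℝ → Set (Fin (d + 1) → ℝ))
    (hUm : ∀ k A, MeasurableSet (Us k A)) (m C : ℝ) (hC : 0 < C)
    (hm : ∀ᶠ k in UF, ∀ ω, (t.l k).T.μ ω ≠ 0 → ∫⁻ z in Us k (t.B k ω),
      ENNReal.ofReal (Real.sqrt (GQ (S.dl lam k) (t.B k ω) z)) ≤ ENNReal.ofReal (C * 2 ^ (m * (S.F k).n)))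
    (hlt : lam + m + ε < b j) :
    Tendsto (fun k => (t.l k).T.pb (fun ω =>
      Q (S.dl lam k) (fun i => ⌊s.Q.v k ((t.l k).p.π ω) i / S.dl lam k⌋) ⊆ Us k (t.B k ω))) UF (𝓝 0) := by
  set U : ∀ k, (t.l.sp.F k).Ω → Prop := fun k ω =>
    Q (S.dl lam k) (fun i => ⌊s.Q.v k ((t.l k).p.π ω) i / S.dl lam k⌋) ⊆ Us k (t.B k ω) with hU
  have hUB : UB (t.l.sp.pr U) := UB_pr U
  have h2 : 0 ≤ ul (t.l.sp.pr U) := const_le_ul hUB (Eventually.of_forall fun k => FSp.pb_nonneg _ _)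
  rcases h2.eq_or_lt with h3 | h3
  · have h4 := ul_tendsto hUB
    rw [← h3] at h4
    exact h4
  exfalso
  have hp0 : ∀ᶠ k in UF, (t.l k).T.pb (U k) ≠ 0 := by
    filter_upwards [eventually_gt_of_lt_ul hUB h3] with k hk
    exact ne_of_gt hk
  have ht' := ht.re U h3
  have hc' := hc.re U h3
  have e1 := ineq_low hvol hD' hst' ht'.con ht'.optB (vb + ε) (b j) j (by
      filter_upwards [hc'.gb] with k hk ω hω using (hk ω hω).2) (by
      filter_upwards [hc'.eb] with k hk ω hω using (hk ω hω j).1) lam h0 h1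
  have e2 := cnt_two_set ht'.con ht'.optB lam vb m C hC h0.le h1 Us hUm (by
      filter_upwards [hc'.gb] with k hk ω hω using (hk ω hω).1) (by
      filter_upwards [hm] with k hk ω hω
      exact hk ω ((t.l k).T.rest_supp (U k) ω hω).1) (by
      filter_upwards [hp0] with k hk ω hω
      exact ((t.l k).T.rest_supp (U k) ω hω).2 hk)
  push_cast at e2
  linarith

end

end Pool.Agent.Helper48.DGR
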