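import Mathlib

/-! Row DGR: numbers. -/

set_option autoImplicit false

namespace Pool.Agent.Helper48.DGR

noncomputable section

theorem pw_mul (a b n : ℝ) : (2 : ℝ) ^ (a * n) * 2 ^ (b * n) = 2 ^ ((a + b) * n) := by
  rw [← Real.rpow_add (by norm_num)]
  congr 1
  ring

theorem pw_div (a b n : ℝ) : (2 : ℝ) ^ (a * n) / 2 ^ (b * n) = 2 ^ ((a - b) * n) := by
  rw [← Real.rpow_sub (by norm_num)]
  congr 1
  ring

theorem pw_pow (a n : ℝ) (m : ℕ) : ((2 : ℝ) ^ (a * n)) ^ m = 2 ^ ((m * a) * n) := by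
  rw [← Real.rpow_natCast, ← Real.rpow_mul (by norm_num)]
  congr 1
  ring

theorem pw_sqrt (a n : ℝ) : Real.sqrt ((2 : ℝ) ^ (a * n)) = 2 ^ (a / 2 * n) := by
  rw [Real.sqrt_eq_rpow, ← Real.rpow_mul (by norm_num)]
  congr 1
  ring

theorem pw_mono {a b n : ℝ} (hn : 0 ≤ n) (h : a ≤ b) : (2 : ℝ) ^ (a * n) ≤ 2 ^ (b * n) :=
  Real.rpow_le_rpow_of_exponent_le (by norm_num) (mul_le_mul_of_nonneg_right h hn)

theorem pw_pos (a : ℝ) : (0 : ℝ) < 2 ^ a := by positivity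

theorem one_le_pw {a n : ℝ} (hn : 0 ≤ n) (h : 0 ≤ a) : (1 : ℝ) ≤ 2 ^ (a * n) :=
  Real.one_le_rpow (by norm_num) (mul_nonneg h hn)

theorem pw_le_one {a n : ℝ} (hn : 0 ≤ n) (h : a ≤ 0) : (2 : ℝ) ^ (a * n) ≤ 1 :=
  Real.rpow_le_one_of_one_le_of_nonpos (by norm_num) (mul_nonpos_of_nonpos_of_nonneg h hn)

/-- the mass of the bad set -/
theorem num_mass {C η e' e'' b n : ℝ} {N d : ℕ} (hn : 0 ≤ n) (hC : 1 ≤ C) (hN : (2 : ℝ) ^ (e' * n) ≤ N)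
    (h1 : b ≤ e' / 2) (h2 : b ≤ e'') :
    C * (2 ^ (η * n)) ^ (d + 1) * (1 / Real.sqrt N + 2 ^ (-e'' * n)) ≤ 2 * C * 2 ^ ((((d : ℝ) + 1) * η - b) * n) := by
  have hs : (2 : ℝ) ^ (e' / 2 * n) ≤ Real.sqrt N := by
    rw [← pw_sqrt]
    exact Real.sqrt_le_sqrt hN
  have h3 : 1 / Real.sqrt N ≤ 2 ^ (-b * n) := by
    have h4 : 1 / Real.sqrt N ≤ 1 / 2 ^ (e' / 2 * n) := one_div_le_one_div_of_le (by positivity) hs
    refine h4.trans ?_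
    rw [one_div, ← Real.rpow_neg (by norm_num), ← neg_mul]
    exact pw_mono hn (by linarith)
  have h5 : (2 : ℝ) ^ (-e'' * n) ≤ 2 ^ (-b * n) := pw_mono hn (by linarith)
  have h6 : C * (2 ^ (η * n)) ^ (d + 1) * (1 / Real.sqrt N + 2 ^ (-e'' * n)) ≤
      C * (2 ^ (η * n)) ^ (d + 1) * (2 ^ (-b * n) + 2 ^ (-b * n)) :=
    mul_le_mul_of_nonneg_left (add_le_add h3 h5) (by positivity)
  refine h6.trans (le_of_eq ?_)
  have h7 : (((d : ℝ) + 1) * η - b) = (((d + 1 : ℕ) : ℝ) * η) + (-b) := by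
    push_cast
    ring
  rw [h7, ← pw_mul, pw_pow]
  ring

/-- the distance to the leaves -/
theorem num_rho {C η e' τ₀ n u : ℝ} {N K : ℕ} (hn : 0 ≤ n) (hC : 1 ≤ C) (hN : (2 : ℝ) ^ (e' * n) ≤ N)
    (hu : u ≤ ((K : ℝ) + 1) * (e' / 2 - τ₀ / 2 - η)) :
    (C * 2 ^ (η * n) / Real.sqrt (N * 2 ^ (-τ₀ * n))) ^ (K + 1) ≤ C ^ (K + 1) * 2 ^ (-u * n) := by
  have hs : (2 : ℝ) ^ ((e' - τ₀) / 2 * n) ≤ Real.sqrt (N * 2 ^ (-τ₀ * n)) := by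
    rw [← pw_sqrt]
    apply Real.sqrt_le_sqrt
    rw [show (e' - τ₀) = e' + -τ₀ by ring, ← pw_mul]
    exact mul_le_mul_of_nonneg_right hN (by positivity)
  have h1 : C * 2 ^ (η * n) / Real.sqrt (N * 2 ^ (-τ₀ * n)) ≤ C * 2 ^ ((η - (e' - τ₀) / 2) * n) := by
    rw [← pw_div, ← mul_div_assoc]
    exact div_le_div_of_nonneg_left (by positivity) (by positivity) hs
  have h2 : 0 ≤ C * 2 ^ (η * n) / Real.sqrt (N * 2 ^ (-τ₀ * n)) := by positivity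
  refine (pow_le_pow_left₀ h2 h1 (K + 1)).trans ?_
  rw [mul_pow, pw_pow]
  apply mul_le_mul_of_nonneg_left _ (by positivity)
  apply pw_mono hn
  push_cast
  nlinarith

/-- the grid is fine enough -/
theorem num_grid {C η e' τ₀ n : ℝ} {N : ℕ} (hN : (2 : ℝ) ^ (e' * n) ≤ N)
    (h : C ≤ 2 ^ ((e' - 4 * η - 2 * τ₀) * n)) : C * (2 ^ (η * n)) ^ 4 / (2 ^ (-τ₀ * n)) ^ 2 ≤ N := by
  refine le_trans ?_ hN
  rw [pw_pow, pw_pow, mul_div_assoc, pw_div]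
  calc C * 2 ^ ((((4 : ℕ) : ℝ) * η - ((2 : ℕ) : ℝ) * -τ₀) * n) ≤
      2 ^ ((e' - 4 * η - 2 * τ₀) * n) * 2 ^ ((((4 : ℕ) : ℝ) * η - ((2 : ℕ) : ℝ) * -τ₀) * n) :=
        mul_le_mul_of_nonneg_right h (by positivity)
    _ = _ := by
        rw [pw_mul]
        congr 1
        push_cast
        ring

/-- the form on the leaves -/
theorem num_leaf {C η e'' τ₀ n D c E : ℝ} {L K : ℕ} {ρ : ℝ} (hn : 0 ≤ n) (hC : 1 ≤ C) (hc : 0 ≤ c) (hη : 0 ≤ η)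
    (hρ0 : 0 ≤ ρ) (hρ : ρ ≤ C ^ (K + 1) * 2 ^ (-(D + 3) * n)) (hL : L * η ≤ 1) (hCK : C ^ (K + 1) ≤ 2 ^ (1 * n))
    (hE : L * (η + τ₀ + e'') + 2 * η ≤ E) (hbig : 4 * c * C ^ 4 ≤ 2 ^ (2 * E * n)) :
    c * (C * (2 ^ (η * n) / (2 ^ (-τ₀ * n) * 2 ^ (-e'' * n))) ^ L *
      (C * 2 ^ (2 * η * n) + (2 ^ (η * n)) ^ L * 2 ^ ((D + 1) * n) * ρ)) ^ 2 ≤ (2 ^ (2 * E * n)) ^ 2 := by
  have h1 : (2 ^ (η * n) / (2 ^ (-τ₀ * n) * 2 ^ (-e'' * n))) ^ L = (2 : ℝ) ^ ((L * (η + τ₀ + e'')) * n) := by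
    rw [pw_mul, pw_div, pw_pow]
    congr 1
    ring
  have h2 : (2 ^ (η * n)) ^ L * 2 ^ ((D + 1) * n) * ρ ≤ C * 2 ^ (2 * η * n) := by
    have h3 : (2 ^ (η * n)) ^ L * 2 ^ ((D + 1) * n) * ρ ≤
        (2 ^ (η * n)) ^ L * 2 ^ ((D + 1) * n) * (2 ^ (1 * n) * 2 ^ (-(D + 3) * n)) := by
      apply mul_le_mul_of_nonneg_left _ (by positivity)
      exact hρ.trans (mul_le_mul_of_nonneg_right hCK (by positivity))
    have h4 : (2 ^ (η * n)) ^ L * 2 ^ ((D + 1) * n) * (2 ^ (1 * n) * 2 ^ (-(D + 3) * n)) =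
        (2 : ℝ) ^ ((L * η - 1) * n) := by
      rw [pw_pow, pw_mul, pw_mul, pw_mul]
      congr 1
      ring
    rw [h4] at h3
    have h5 : (2 : ℝ) ^ ((L * η - 1) * n) ≤ 1 := pw_le_one hn (by linarith)
    have h6 : (1 : ℝ) ≤ 2 ^ (2 * η * n) := one_le_pw hn (by linarith)
    nlinarith
  rw [h1]
  have h7 : C * 2 ^ ((L * (η + τ₀ + e'')) * n) * (C * 2 ^ (2 * η * n) + (2 ^ (η * n)) ^ L * 2 ^ ((D + 1) * n) * ρ) ≤
      2 * C ^ 2 * 2 ^ (E * n) := by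
    calc C * 2 ^ ((L * (η + τ₀ + e'')) * n) *
        (C * 2 ^ (2 * η * n) + (2 ^ (η * n)) ^ L * 2 ^ ((D + 1) * n) * ρ) ≤
        C * 2 ^ ((L * (η + τ₀ + e'')) * n) * (C * 2 ^ (2 * η * n) + C * 2 ^ (2 * η * n)) :=
          mul_le_mul_of_nonneg_left (add_le_add le_rfl h2) (by positivity)
      _ = 2 * C ^ 2 * (2 ^ ((L * (η + τ₀ + e'')) * n) * 2 ^ (2 * η * n)) := by ring
      _ = 2 * C ^ 2 * 2 ^ ((L * (η + τ₀ + e'') + 2 * η) * n) := by rw [pw_mul]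
      _ ≤ _ := mul_le_mul_of_nonneg_left (pw_mono hn hE) (by positivity)
  have h8 : 0 ≤ C * 2 ^ ((L * (η + τ₀ + e'')) * n) *
      (C * 2 ^ (2 * η * n) + (2 ^ (η * n)) ^ L * 2 ^ ((D + 1) * n) * ρ) := by positivity
  have h9 := mul_le_mul_of_nonneg_left (pow_le_pow_left₀ h8 h7 2) hc
  refine h9.trans ?_
  have h10 : c * (2 * C ^ 2 * 2 ^ (E * n)) ^ 2 = (4 * c * C ^ 4) * 2 ^ (2 * E * n) := by
    rw [mul_pow, pw_pow]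
    push_cast
    ring
  rw [h10, sq]
  exact mul_le_mul_of_nonneg_right hbig (by positivity)

end

end Pool.Agent.Helper48.DGR
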