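import Pool.Agent.Helper48.DGR.Sel
import Pool.Agent.Helper48.DGR.Num

/-! Row DGR: the leaf of a good point. -/

set_option autoImplicit false

namespace Pool.Agent.Helper48.DGR

open Finset Filter Topology Matrix MeasureTheory Pool.Agent.Helper69.RK Pool.Agent.Helper31.EC
open Pool.Agent.Helper31.EC.Sp
open Pool.Agent.Helper40.EL Pool.Agent.Helper89.LX Pool.Agent.Helper3.LF Pool.Agent.Helper84.MT Pool.Agent.Helper59.LF
open Pool.Agent.Helper95.LF (PdM exists_factor)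
open Pool.Agent.Helper80.LF (Q mem_Q)

noncomputable section

variable {d D D' : ℕ}

/-- a point which is steep and whose cell is not contained in the bad set is close to a leaf -/
theorem pt_leaf {K : ℕ} {C : ℝ} {L : ℕ} {B : Matrix (Mon (d + 1) D') (Mon (d + 1) D') ℝ} {r κ : ℝ} {N : ℕ}
    {θ τ : ℝ} {s : SlD d} (hs : SlOk D K C L B r κ N θ τ s) (hr : 0 < r) (p : Fin (d + 1) → ℝ) (hphi : phi r B p ≤ κ)
    (hp : ∀ a, |p a| ≤ κ) (hcell : ¬ Q r (fun i => ⌊p i / r⌋) ⊆ s.B) (j : Fin (d + 1))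
    (hJ : ∀ x : Fin (d + 1) → ℝ, (∀ a, |x a - p a| ≤ r) → τ ≤ r ^ 2 * Jq r B x j j)
    (hclose : C * κ * (C * κ / Real.sqrt (N * τ)) ^ (K + 1) ≤ r) :
    ∃ (i : ℕ) (X : Fin d → ℝ), i < s.n₀ ∧ (∀ a, 0 ≤ X a ∧ X a ≤ 1) ∧
      ∀ a, |p a - MvPolynomial.eval X (s.fi i a)| ≤ 3 * r := by
  obtain ⟨x, hx, hxB⟩ := Set.not_subset.mp hcell
  have h1 : ∀ a, |x a - p a| ≤ r := cell_close hr hx
  obtain ⟨i, X, z, a1, a2, a3⟩ := hs.pt p x hphi hp h1 hxB j (hJ x h1)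
  refine ⟨i, X, i.2, a1, fun a => ?_⟩
  rw [SlD.fi_eq]
  have b1 := h1 a
  have b2 := a2 a
  have b3 := (a3 a).trans hclose
  rw [abs_le] at b1 b2 b3 ⊢
  constructor
  · linarith [b1.1, b1.2, b2.1, b2.2, b3.1, b3.2]
  · linarith [b1.1, b1.2, b2.1, b2.2, b3.1, b3.2]

/-- steepness on the coarser cell -/
theorem steep_cell {M : ℕ} {B : Matrix (Mon M D) (Mon M D) ℝ} (hB : PdM B) {S : Sp} {lam : ℝ} (h1 : lam ≤ 1) (k : ℕ)
    (p x : Fin M → ℝ) (hx : ∀ a, |x a - p a| ≤ S.dl lam k) (j : Fin M) {bs τ : ℝ}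
    (hb : (2 : ℝ) ^ (2 * bs * (S.F k).n) ≤ 1 + Jq (S.dl 1 k) B p j j) (h2 : (2 : ℝ) ≤ 2 ^ (2 * bs * (S.F k).n))
    (hτ : 2 * (cQ M D * 2 ^ (2 * D)) * τ ≤ 2 ^ ((2 * bs - 2 * lam) * (S.F k).n)) :
    τ ≤ S.dl lam k ^ 2 * Jq (S.dl lam k) B x j j := by
  have hδ := S.dl_pos lam k
  have hd1 := S.dl_pos 1 k
  have hd2 : S.dl 1 k ≤ S.dl lam k := S.dl_anti h1 k
  have h3 := Jq_comp' B hB (S.dl lam k) (S.dl 1 k) 2 hδ hd1.le (by norm_num) x p (fun i => by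
    have := hx i
    rw [abs_sub_comm] at this
    linarith) (Pi.single j 1)
  rw [Jq_jj, Jq_jj] at h3
  set c := cQ M D * 2 ^ (2 * D) with hc
  have hc0 : 0 < c := by
    have := cQ_one M D
    positivity
  have h4 : (2 : ℝ) ^ (2 * bs * (S.F k).n) / 2 ≤ c * Jq (S.dl lam k) B x j j := by linarith
  have h5 : S.dl lam k ^ 2 * 2 ^ (2 * bs * (S.F k).n) = 2 ^ ((2 * bs - 2 * lam) * (S.F k).n) := by
    unfold Sp.dl
    rw [← Real.rpow_natCast, ← Real.rpow_mul (by norm_num), ← Real.rpow_add (by norm_num)]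
    congr 1
    push_cast
    ring
  have h6 : S.dl lam k ^ 2 * (2 ^ (2 * bs * (S.F k).n) / 2) ≤ S.dl lam k ^ 2 * (c * Jq (S.dl lam k) B x j j) :=
    mul_le_mul_of_nonneg_left h4 (by positivity)
  have h7 : 2 * c * τ ≤ 2 * c * (S.dl lam k ^ 2 * Jq (S.dl lam k) B x j j) := by
    calc 2 * c * τ ≤ 2 ^ ((2 * bs - 2 * lam) * (S.F k).n) := hτ
      _ = S.dl lam k ^ 2 * 2 ^ (2 * bs * (S.F k).n) := h5.symm
      _ ≤ _ := by linarith
  exact le_of_mul_le_mul_left h7 (by positivity)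

theorem exists_pt (F : FSp) : ∃ ω, F.μ ω ≠ 0 := by
  by_contra hcon
  push Not at hcon
  have h1 : ∑ ω, F.μ ω = 1 := F.ms
  rw [Finset.sum_eq_zero fun ω _ => hcon ω] at h1
  norm_num at h1

end

end Pool.Agent.Helper48.DGR
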