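import Pool.Agent.Helper48.DGR.Inq

/-! Row DGR: the charts of the hull at the index `k` (output of `SliceP`), the form on the leaves. -/

set_option autoImplicit false

namespace Pool.Agent.Helper48.DGR

open Finset Filter Topology Matrix MeasureTheory Pool.Agent.Helper69.RK Pool.Agent.Helper31.EC
open Pool.Agent.Helper31.EC.Sp
open Pool.Agent.Helper40.EL Pool.Agent.Helper89.LX Pool.Agent.Helper3.LF Pool.Agent.Helper84.MT Pool.Agent.Helper59.LF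
open Pool.Agent.Helper95.LF (PdM exists_factor)
open Pool.Agent.Helper48.DGM (Qmon Qmon_eval Qmon_deg)
open Pool.Agent.Helper48.NS (evq)

noncomputable section

variable {d D D' : ℕ}

/-- data of the leaves -/
structure SlD (d : ℕ) where
  B : Set (Fin (d + 1) → ℝ)
  n₀ : ℕ
  Φ : Fin n₀ → Fin (d + 1) → MvPolynomial (Fin d) ℝ

/-- the properties of the leaves -/
structure SlOk (D K : ℕ) (C : ℝ) (L : ℕ) (A : Matrix (Mon (d + 1) D') (Mon (d + 1) D') ℝ) (r κ : ℝ) (N : ℕ)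
    (θ τ : ℝ) (s : SlD d) : Prop where
  meas : MeasurableSet s.B
  cnt : (s.n₀ : ℝ) ≤ C * (N : ℝ) ^ (d + 1)
  deg : ∀ i a, (s.Φ i a).totalDegree ≤ (d + 1) * K
  mass : ∫⁻ x in s.B, ENNReal.ofReal (Real.sqrt (GQ r A x)) ≤
      ENNReal.ofReal (C * κ ^ (d + 1) * (1 / Real.sqrt N + θ))
  pt : ∀ p x : Fin (d + 1) → ℝ, phi r A p ≤ κ → (∀ a, |p a| ≤ κ) → (∀ a, |x a - p a| ≤ r) → x ∉ s.B →
      ∀ j, τ ≤ r ^ 2 * Jq r A x j j → ∃ (i : Fin s.n₀) (X : Fin d → ℝ) (z : Fin (d + 1) → ℝ),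
        (∀ a, 0 ≤ X a ∧ X a ≤ 1) ∧ (∀ a, |z a - x a| ≤ r) ∧
          ∀ a, |z a - MvPolynomial.eval X (s.Φ i a)| ≤ C * κ * (C * κ / Real.sqrt (N * τ)) ^ (K + 1)
  bd : ∀ (i : Fin s.n₀) (f : MvPolynomial (Fin (d + 1)) ℝ), f.totalDegree ≤ D → ∀ H H₂ : ℝ, 0 ≤ H → 0 ≤ H₂ →
      (∀ a, |f.coeff a| ≤ H₂) →
      (∀ x : Fin (d + 1) → ℝ, phi r A x ≤ C * κ ^ 2 → (∀ a, |x a| ≤ C * κ) → |MvPolynomial.eval x f| ≤ H) →
      ∀ X : Fin d → ℝ, (∀ a, 0 ≤ X a ∧ X a ≤ 1) →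
        |MvPolynomial.eval (fun a => MvPolynomial.eval X (s.Φ i a)) f| ≤
          C * (κ / (τ * θ)) ^ L * (H + κ ^ L * H₂ * (C * κ / Real.sqrt (N * τ)) ^ (K + 1))

theorem exists_sl {K : ℕ} (h : SliceP d D' D K) : ∃ (C : ℝ) (L : ℕ), 1 ≤ C ∧
    ∀ A : Matrix (Mon (d + 1) D') (Mon (d + 1) D') ℝ, PdM A → (∀ v, v ⬝ᵥ v ≤ qf A v) → ∀ r : ℝ, 0 < r → r ≤ 1 →
      ∀ κ : ℝ, 1 ≤ κ → ∀ (N : ℕ) (θ τ : ℝ), 0 < θ → θ ≤ 1 → 0 < τ → τ ≤ 1 → C * κ ^ 4 / τ ^ 2 ≤ N →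
        ∃ s : SlD d, SlOk D K C L A r κ N θ τ s := by
  obtain ⟨C, L, hC, h1⟩ := h
  refine ⟨C, L, hC, fun A hA hA' r hr hr1 κ hκ N θ τ a b c e f => ?_⟩
  obtain ⟨B, n₀, Φ, p1, p2, p3, p4, p5, p6⟩ := h1 A hA hA' r hr hr1 κ hκ N θ τ a b c e f
  exact ⟨⟨B, n₀, Φ⟩, ⟨p1, p2, p3, p4, p5, p6⟩⟩

open Classical in
/-- the choice of the leaves -/
def sel (D K : ℕ) (C : ℝ) (L : ℕ) (r κ : ℝ) (N : ℕ) (θ τ : ℝ) (A : Matrix (Mon (d + 1) D') (Mon (d + 1) D') ℝ) : SlD d :=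
  if h : ∃ s : SlD d, SlOk D K C L A r κ N θ τ s then h.choose else ⟨∅, 0, fun _ _ => 0⟩

theorem sel_ok {D K : ℕ} {C : ℝ} {L : ℕ} {r κ : ℝ} {N : ℕ} {θ τ : ℝ} {A : Matrix (Mon (d + 1) D') (Mon (d + 1) D') ℝ}
    (h : ∃ s : SlD d, SlOk D K C L A r κ N θ τ s) : SlOk D K C L A r κ N θ τ (sel D K C L r κ N θ τ A) := by
  unfold sel
  rw [dif_pos h]
  exact h.choose_spec

theorem sel_meas (D K : ℕ) (C : ℝ) (L : ℕ) (r κ : ℝ) (N : ℕ) (θ τ : ℝ) (A : Matrix (Mon (d + 1) D') (Mon (d + 1) D') ℝ) :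
    MeasurableSet (sel D K C L r κ N θ τ A).B := by
  by_cases h : ∃ s : SlD d, SlOk D K C L A r κ N θ τ s
  · exact (sel_ok h).meas
  · unfold sel
    rw [dif_neg h]
    exact MeasurableSet.empty

theorem sel_deg (D K : ℕ) (C : ℝ) (L : ℕ) (r κ : ℝ) (N : ℕ) (θ τ : ℝ) (A : Matrix (Mon (d + 1) D') (Mon (d + 1) D') ℝ)
    (i : Fin (sel D K C L r κ N θ τ A).n₀) (a : Fin (d + 1)) :
    ((sel D K C L r κ N θ τ A).Φ i a).totalDegree ≤ (d + 1) * K := by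
  by_cases h : ∃ s : SlD d, SlOk D K C L A r κ N θ τ s
  · exact (sel_ok h).deg i a
  · exfalso
    have h1 : (sel D K C L r κ N θ τ A).n₀ = 0 := by
      unfold sel
      rw [dif_neg h]
    have h2 := i.2
    omega

/-- the leaf with the number `i` -/
def SlD.fi (s : SlD d) (i : ℕ) : Fin (d + 1) → MvPolynomial (Fin d) ℝ := if h : i < s.n₀ then s.Φ ⟨i, h⟩ else fun _ => 0

theorem SlD.fi_eq (s : SlD d) (i : Fin s.n₀) : s.fi i = s.Φ i := by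
  unfold SlD.fi
  rw [dif_pos i.2]

theorem sel_fi_deg (D K : ℕ) (C : ℝ) (L : ℕ) (r κ : ℝ) (N : ℕ) (θ τ : ℝ) (A : Matrix (Mon (d + 1) D') (Mon (d + 1) D') ℝ)
    (i : ℕ) (a : Fin (d + 1)) : ((sel D K C L r κ N θ τ A).fi i a).totalDegree ≤ (d + 1) * K := by
  unfold SlD.fi
  split_ifs with h
  · exact sel_deg D K C L r κ N θ τ A ⟨i, h⟩ a
  · rw [MvPolynomial.totalDegree_zero]
    exact Nat.zero_le _

/-! ### coefficients -/

theorem coeff_pol_le {M : ℕ} (c : Mon M D → ℝ) (H : ℝ) (h0 : 0 ≤ H) (h : ∀ a, |c a| ≤ H) (a : Fin M →₀ ℕ) :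
    |(pol c).coeff a| ≤ H := by
  by_cases ha : ∑ i, a i ≤ D
  · have h1 : ∀ i, a i ≤ D := fun i =>
      (Finset.single_le_sum (f := fun i => a i) (fun _ _ => Nat.zero_le _) (Finset.mem_univ i)).trans ha
    set b : Mon M D := ⟨fun i => ⟨a i, Nat.lt_succ_of_le (h1 i)⟩, ha⟩ with hb
    have h2 : b.ex = a := by
      ext i
      rfl
    rw [← h2, coeff_pol]
    exact h b
  · rw [MvPolynomial.coeff_eq_zero_of_totalDegree_lt, abs_zero]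
    · exact h0
    · refine lt_of_le_of_lt (pol_deg c) ?_
      have h1 : ∑ i ∈ a.support, a i = ∑ i, a i :=
        Finset.sum_subset (Finset.subset_univ _) fun i _ hi => Finsupp.notMem_support_iff.mp hi
      rw [h1]
      exact not_le.mp ha

theorem em_vv {M : ℕ} (h : D ≤ D') (x : Fin M → ℝ) : (fun a : Mon M D => (vv x : Mon M D' → ℝ) (em h a)) = vv x := by
  funext a
  rw [vv_apply, vv_apply]
  rfl

theorem vv_le_phi {M : ℕ} {A : Matrix (Mon M D) (Mon M D) ℝ} (hA : ∀ v, 0 ≤ v ⬝ᵥ (A *ᵥ v)) (r : ℝ) (p : Fin M → ℝ) :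
    qf A (vv p) ≤ phi r A p := by
  have e2 : nodp D p r (fun _ => 0) = p := by
    funext i
    unfold nodp nod
    simp
  unfold phi
  refine le_trans (le_of_eq ?_) (Finset.single_le_sum (f := fun j => vv (nodp D p r j) ⬝ᵥ
    (A *ᵥ vv (nodp D p r j))) (fun j _ => hA _) (Finset.mem_univ (fun _ => 0)))
  show _ = vv (nodp D p r (fun _ => 0)) ⬝ᵥ (A *ᵥ vv (nodp D p r (fun _ => 0)))
  rw [e2]
  rfl

/-- the first form on the leaves of the second form -/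
theorem qf_leaf {K : ℕ} {C : ℝ} {L : ℕ} {A : Matrix (Mon (d + 1) D) (Mon (d + 1) D) ℝ}
    {B : Matrix (Mon (d + 1) D') (Mon (d + 1) D') ℝ} (h : D ≤ D') {r κ : ℝ} {N : ℕ} {θ τ : ℝ} {s : SlD d}
    (hs : SlOk D K C L B r κ N θ τ s) (hA : PdM A) (hB : PdM B) (H H₂ W : ℝ) (hH : 0 ≤ H) (hH₂ : 0 ≤ H₂) (hW : 0 ≤ W)
    (hcap : ∀ v, qf A v ≤ H₂ ^ 2 * (v ⬝ᵥ v))
    (hdom : ∀ v : Mon (d + 1) D' → ℝ, qf A (fun a => v (em h a)) ≤ W * qf B v) (hWH : W * (C * κ ^ 2) ≤ H ^ 2)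
    (i : Fin s.n₀) (X : Fin d → ℝ) (hX : ∀ a, 0 ≤ X a ∧ X a ≤ 1) :
    qf A (vv fun a => MvPolynomial.eval X (s.Φ i a)) ≤ Fintype.card (Mon (d + 1) D) *
      (C * (κ / (τ * θ)) ^ L * (H + κ ^ L * H₂ * (C * κ / Real.sqrt (N * τ)) ^ (K + 1))) ^ 2 := by
  obtain ⟨R, hR, -⟩ := exists_factor A hA
  have hq : ∀ v, qf A v = ∑ c, (R c ⬝ᵥ v) ^ 2 := by
    intro v
    unfold qf
    rw [hR, qf_rows]
  have hrow : ∀ c v, (R c ⬝ᵥ v) ^ 2 ≤ qf A v := by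
    intro c v
    rw [hq]
    exact Finset.single_le_sum (f := fun c => (R c ⬝ᵥ v) ^ 2) (fun c _ => sq_nonneg _) (Finset.mem_univ c)
  have key : ∀ c, |MvPolynomial.eval (fun a => MvPolynomial.eval X (s.Φ i a)) (pol (R c))| ≤
      C * (κ / (τ * θ)) ^ L * (H + κ ^ L * H₂ * (C * κ / Real.sqrt (N * τ)) ^ (K + 1)) := by
    intro c
    refine hs.bd i (pol (R c)) (pol_deg _) H H₂ hH hH₂ (coeff_pol_le _ _ hH₂ fun a => ?_) (fun x hx _ => ?_) X hX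
    · apply abs_le_of_sq_le_sq _ hH₂
      have h1 := (hrow c (Pi.single a 1)).trans (hcap (Pi.single a 1))
      rw [dotProduct_single_one, single_one_dotProduct, Pi.single_eq_same, mul_one] at h1
      exact h1
    · apply abs_le_of_sq_le_sq _ hH
      rw [eval_pol]
      refine (hrow c (vv x)).trans ?_
      rw [← em_vv h x]
      refine (hdom _).trans (le_trans (mul_le_mul_of_nonneg_left ?_ hW) hWH)
      exact (vv_le_phi hB.nonneg r x).trans hx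
  rw [hq]
  calc ∑ c, (R c ⬝ᵥ vv fun a => MvPolynomial.eval X (s.Φ i a)) ^ 2 ≤ ∑ _c : Mon (d + 1) D,
      (C * (κ / (τ * θ)) ^ L * (H + κ ^ L * H₂ * (C * κ / Real.sqrt (N * τ)) ^ (K + 1))) ^ 2 := by
        refine Finset.sum_le_sum fun c _ => ?_
        rw [← eval_pol, ← sq_abs]
        exact pow_le_pow_left₀ (abs_nonneg _) (key c) 2
    _ = _ := by
        rw [Finset.sum_const, Finset.card_univ, nsmul_eq_mul]

end

end Pool.Agent.Helper48.DGR
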