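import Pool.Agent.Helper48.DGR.St
import Pool.Agent.Helper26.MT.Zw

/-! Row DGR: two canonical forms over one label, restriction to events of the space of the label. -/

set_option autoImplicit false

namespace Pool.Agent.Helper48.DGR

open Finset Filter Topology Matrix MeasureTheory Pool.Agent.Helper69.RK Pool.Agent.Helper31.EC
open Pool.Agent.Helper31.EC.Sp
open Pool.Agent.Helper40.EL Pool.Agent.Helper89.LX Pool.Agent.Helper3.LF Pool.Agent.Helper84.MT Pool.Agent.Helper59.LF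
open Pool.Agent.Helper95.LF (PdM)
open Pool.Agent.Helper14.MC (gx vx vol_eq vx_UB)

noncomputable section

variable {ι : Type} {F : FSp}

/-- join of a label and a label with forms -/
def jr (x : FD F ι) (l : FLab F) : FD F ι where
  l := l.join x.l
  g := fun w => x.g ((l.am x.l).p2.π w)
  g' := fun w => x.g' ((l.am x.l).p2.π w)
  meas := fun w w' h h' hV hZ => by
    have a := (l.am x.l).p2.supp w h
    have a' := (l.am x.l).p2.supp w' h'
    refine x.meas _ _ a a' hV.2 ?_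
    exact ((l.am x.l).p2.hZ w w' h h').mp hZ

theorem jr_leak (x : FD F ι) (l : FLab F) (y : FL F) : (jr x l).l.leak y ≤ x.l.leak y + l.leak y := by
  have := l.join_leak x.l y
  have h1 : (jr x l).l.leak y = (l.join x.l).leak y := rfl
  rw [h1]
  linarith

theorem jr_sc [Fintype ι] [DecidableEq ι] (x : FD F ι) (l : FLab F) : (jr x l).sc = x.sc :=
  sum_push (l.am x.l).p2 (fun ω => Real.logb 2 (x.g ω).det)

variable [Fintype ι] [DecidableEq ι] {S : Sp} (Φ : Gau S ι) {κ : Type}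

theorem Admf_jr {A : κ → Part S} {η η' : ℝ} (h0 : 0 ≤ η') {k : ℕ} {x : FD (S.F k) ι} (hx : Φ.Admf A η k x)
    {l : FLab (S.F k)} (hA : ∀ i, l.leak (A i k) ≤ η' * (S.F k).n) :
    Φ.Admf A (η + η') k (jr x l) := by
  have hn := (S.F k).pos
  have key : ∀ g : x.l.T.Ω → Matrix ι ι ℝ,
      x.l.T.pb (fun ω => ¬ Φ.φ k (x.l.p.π ω) (g ω) ≤ 2 ^ (η * (S.F k).n)) ≤ η →
      (jr x l).l.T.pb (fun w => ¬ Φ.φ k ((jr x l).l.p.π w) (g ((l.am x.l).p2.π w)) ≤
        2 ^ ((η + η') * (S.F k).n)) ≤ η + η' := by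
    intro g hg
    have h1 := pb_push (l.am x.l).p2 (fun ω => ¬ Φ.φ k (x.l.p.π ω) (g ω) ≤ 2 ^ (η * (S.F k).n))
    have h2 : (jr x l).l.T.pb (fun w => ¬ Φ.φ k ((jr x l).l.p.π w) (g ((l.am x.l).p2.π w)) ≤
        2 ^ ((η + η') * (S.F k).n)) ≤
        (l.am x.l).sp.pb (fun w => ¬ Φ.φ k (x.l.p.π ((l.am x.l).p2.π w)) (g ((l.am x.l).p2.π w)) ≤
          2 ^ (η * (S.F k).n)) := by
      apply FSp.pb_mono
      intro w hw h3 h4
      apply h3
      have e1 : (jr x l).l.p.π w = x.l.p.π ((l.am x.l).p2.π w) := ((l.am x.l).supp w hw).1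
      rw [e1]
      refine le_trans h4 ?_
      apply Real.rpow_le_rpow_of_exponent_le (by norm_num)
      nlinarith
    linarith
  refine ⟨fun i => ?_, fun w hw => ?_, key x.g hx.2.2.1, key x.g' hx.2.2.2⟩
  · have := jr_leak x l (A i k)
    rw [add_mul]
    linarith [hx.1 i, hA i]
  · exact hx.2.1 _ ((l.am x.l).p2.supp w hw)

theorem Adf_jr [Finite κ] {A : κ → Part S} {x : ∀ k, FD (S.F k) ι} (hx : Φ.Adf A x) {l : Lab S}
    (hl : l.DMf A) : Φ.Adf A (fun k => jr (x k) (l k)) := by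
  intro η hη
  have h2 : 0 < η / 2 := by linarith
  filter_upwards [hx _ h2, leak_evf hl h2] with k a b
  have := Admf_jr Φ h2.le a b
  rwa [add_halves] at this

theorem Optf_jr [Finite κ] {A : κ → Part S} {x : ∀ k, FD (S.F k) ι} (hx : Φ.Optf A x) {l : Lab S}
    (hl : l.DMf A) : Φ.Optf A (fun k => jr (x k) (l k)) := by
  refine ⟨Adf_jr Φ hx.1 hl, fun y hy => ?_⟩
  have h1 : (fun k => (jr (x k) (l k)).sc / (S.F k).n) = fun k => (x k).sc / (S.F k).n := by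
    funext k
    rw [jr_sc (x k) (l k)]
  rw [h1]
  exact hx.2 y hy

/-- the second form is replaced by the first one -/
def dup (x : FD F ι) : FD F ι where
  l := x.l
  g := x.g
  g' := x.g
  meas := fun w w' h h' hV hZ => ⟨(x.meas w w' h h' hV hZ).1, (x.meas w w' h h' hV hZ).1⟩

theorem Adf_dup {A : κ → Part S} {x : ∀ k, FD (S.F k) ι} (hx : Φ.Adf A x) : Φ.Adf A (fun k => dup (x k)) := by
  intro η hη
  filter_upwards [hx η hη] with k hk
  exact ⟨hk.1, fun ω hω => ⟨(hk.2.1 ω hω).1, (hk.2.1 ω hω).1⟩, hk.2.2.1, hk.2.2.1⟩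

theorem Optf_dup {A : κ → Part S} {x : ∀ k, FD (S.F k) ι} (hx : Φ.Optf A x) : Φ.Optf A (fun k => dup (x k)) :=
  ⟨Adf_dup Φ hx.1, hx.2⟩

/-! ### two forms over one label -/

variable {M D D' : ℕ} {E : ℕ → ℕ} {ι' : Type}

/-- two forms over one label -/
structure Two (s : MSys S M E ι') (D D' : ℕ) where
  l : Lab S
  A : ∀ k, (l k).T.Ω → Matrix (Mon M D) (Mon M D) ℝ
  B : ∀ k, (l k).T.Ω → Matrix (Mon M D') (Mon M D') ℝ
  mA : ∀ k (ω ω' : (l k).T.Ω), (l k).T.μ ω ≠ 0 → (l k).T.μ ω' ≠ 0 → (l k).V ω ω' → (l k).T.Z ω ω' → A k ω = A k ω'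
  mB : ∀ k (ω ω' : (l k).T.Ω), (l k).T.μ ω ≠ 0 → (l k).T.μ ω' ≠ 0 → (l k).V ω ω' → (l k).T.Z ω ω' → B k ω = B k ω'

namespace Two

variable {s : MSys S M E ι'} (t : Two s D D')

/-- the first form -/
def x : ∀ k, FD (S.F k) (Mon M D) := fun k =>
  ⟨t.l k, t.A k, t.A k, fun ω ω' a b c d => ⟨t.mA k ω ω' a b c d, t.mA k ω ω' a b c d⟩⟩

/-- the second form -/
def y : ∀ k, FD (S.F k) (Mon M D') := fun k =>
  ⟨t.l k, t.B k, t.B k, fun ω ω' a b c d => ⟨t.mB k ω ω' a b c d, t.mB k ω ω' a b c d⟩⟩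

/-- the second form dominates the first one -/
def Dom (h : D ≤ D') : Prop := ∀ e : ℝ, 0 < e → Tendsto (fun k => (t.l k).T.pb (fun ω => ¬ ∀ v : Mon M D' → ℝ,
  qf (t.A k ω) (fun a => v (em h a)) ≤ 2 ^ (e * (S.F k).n) * qf (t.B k ω) v)) UF (𝓝 0)

/-- the conditions: a connected system, two canonical forms, dominance -/
structure Ok (h : D ≤ D') : Prop where
  con : s.Con 0
  canA : s.IsCan D 0 t.x
  optB : (gaq s.Q D').Optf (s.cnd 0) t.y
  dom : t.Dom h

/-- restriction to an event -/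
def re (U : ∀ k, (t.l.sp.F k).Ω → Prop) (hU : 0 < ul (t.l.sp.pr U)) : Two (s.im t.l.pj U hU) D D' where
  l := t.l.im U
  A := t.A
  B := t.B
  mA := fun k ω ω' a b c d => t.mA k ω ω' ((t.l k).T.rest_supp (U k) ω a).1 ((t.l k).T.rest_supp (U k) ω' b).1 c d
  mB := fun k ω ω' a b c d => t.mB k ω ω' ((t.l k).T.rest_supp (U k) ω a).1 ((t.l k).T.rest_supp (U k) ω' b).1 c d

theorem re_x (U : ∀ k, (t.l.sp.F k).Ω → Prop) (hU : 0 < ul (t.l.sp.pr U)) : (t.re U hU).x = reS t.x U := rfl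

theorem re_y (U : ∀ k, (t.l.sp.F k).Ω → Prop) (hU : 0 < ul (t.l.sp.pr U)) : (t.re U hU).y = reS t.y U := rfl

variable {t}

theorem Dom.re {h : D ≤ D'} (hd : t.Dom h) (U : ∀ k, (t.l.sp.F k).Ω → Prop) (hU : 0 < ul (t.l.sp.pr U)) :
    (t.re U hU).Dom h := by
  intro e he
  set r := ul (t.l.sp.pr U) with hr
  have h1 := (hd e he).const_mul (2 / r)
  rw [mul_zero] at h1
  refine tendsto_of_tendsto_of_tendsto_of_le_of_le' tendsto_const_nhds h1
    (Eventually.of_forall fun k => FSp.pb_nonneg _ _) ?_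
  filter_upwards [pr_half' hU] with k hp
  have hpb : r / 2 ≤ (t.l k).T.pb (U k) := hp
  have h2 := pb_rest_le (t.l k).T (U k) (fun ω => ¬ ∀ v : Mon M D' → ℝ,
    qf (t.A k ω) (fun a => v (em h a)) ≤ 2 ^ (e * (S.F k).n) * qf (t.B k ω) v) (r / 2) (by positivity) hpb
  refine h2.trans (le_of_eq ?_)
  field_simp

theorem Ok.re [Finite ι'] {h : D ≤ D'} (hd : t.Ok h) (U : ∀ k, (t.l.sp.F k).Ω → Prop) (hU : 0 < ul (t.l.sp.pr U)) :
    (t.re U hU).Ok h where
  con := MSys.Con.im hd.con t.l.pj U hU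
  canA := MSys.IsCan.re hd.canA U hU
  optB := by
    rw [MSys.cnd_im]
    have h2 : gaq (s.im t.l.pj U hU).Q D' = (gaq s.Q D').im t.l.pj U := gaq_im _ _ _ _
    rw [h2]
    exact Gau.Optf.re hd.optB U hU
  dom := hd.dom.re U hU

end Two

/-- two canonical forms over one label exist -/
theorem exists_two [Finite ι'] (hemb : EmbP M) (s : MSys S M E ι') (hc : s.Con 0) (h : D ≤ D') :
    ∃ t : Two s D D', t.Ok h ∧ vol s.Q D t.x = s.vol D 0 ∧ vol s.Q D' t.y = s.vol D' 0 := by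
  obtain ⟨x, hx⟩ := s.exists_can D 0
  obtain ⟨y, hy⟩ := s.exists_can D' 0
  have hxl : Lab.DMf (fun k => (x k).l) (s.cnd 0) := Gau.Adf.dm _ hx.1.1
  have hyl : Lab.DMf (fun k => (y k).l) (s.cnd 0) := Gau.Adf.dm _ hy.1.1
  set t : Two s D D' := {
    l := fun k => (x k).l.join (y k).l
    A := fun k w => (x k).g (((x k).l.am (y k).l).p1.π w)
    B := fun k w => (y k).g (((x k).l.am (y k).l).p2.π w)
    mA := fun k ω ω' a b c d => (((x k).jn (y k).l).meas ω ω' a b c d).1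
    mB := fun k ω ω' a b c d => ((jr (y k) (x k).l).meas ω ω' a b c d).1 } with ht
  have e1 : t.x = fun k => dup ((x k).jn (y k).l) := rfl
  have e2 : t.y = fun k => dup (jr (y k) (x k).l) := rfl
  have o1 : (gaq s.Q D).Optf (s.cnd 0) t.x := by
    rw [e1]
    exact Optf_dup _ (Gau.Optf.jn _ hx.1 hyl)
  have o2 : (gaq s.Q D').Optf (s.cnd 0) t.y := by
    rw [e2]
    exact Optf_dup _ (Optf_jr _ hy.1 hxl)
  refine ⟨t, ⟨hc, ⟨o1, ?_⟩, o2, ?_⟩, s.vol_eq o1, s.vol_eq o2⟩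
  · refine ⟨Gau.Adf.dm _ o1.1, fun l' hl' => ?_⟩
    refine (hx.2.2 l' hl').trans ?_
    apply ul_mono (hxl.ub (i := none) (pcd_Bd s.Q)) ((Gau.Adf.dm _ o1.1).ub (i := none) (pcd_Bd s.Q))
    refine Eventually.of_forall fun k => div_le_div_of_nonneg_right ?_ (S.F k).pos.le
    exact (x k).l.join_info_ge_left (y k).l
  · intro e he
    exact (hemb D D' h S ι' inferInstance E s).2 x y hx.1.1 hy.1 e he

end

end Pool.Agent.Helper48.DGR
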